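import Pool.Agent.Q116.Inv2.Tile
import Pool.Agent.Q116.Inv.Upper

/-! # Tiles together with stars: path-free subgraphs with many edges -/

set_option autoImplicit false

namespace Q116.Inv2

open Finset SimpleGraph Q116.Inv

variable {V : Type}

/-- Hypothesis: every subgraph of `G` without a path with `2t` edges has less than `k` edges. -/
def SmallE (G : SimpleGraph V) (t k : ℕ) : Prop :=
  ∀ H : SimpleGraph V, H ≤ G → (pathGraph (2 * t + 1)).Free H → H.edgeSet.ncard < k

/-- the tile graph -/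
def tg (G : SimpleGraph V) (F : Finset (Finset V)) : SimpleGraph V where
  Adj x y := G.Adj x y ∧ ∃ S ∈ F, x ∈ S ∧ y ∈ S
  symm := ⟨fun _ _ h => ⟨h.1.symm, h.2.imp fun _ hS => ⟨hS.1, hS.2.2, hS.2.1⟩⟩⟩
  loopless := ⟨fun x h => G.loopless.irrefl x h.1⟩

theorem path_contained {m n : ℕ} (h : m ≤ n) : pathGraph m ⊑ pathGraph n := by
  refine ⟨⟨⟨fun i => ⟨i.val, by have := i.2; omega⟩, ?_⟩, ?_⟩⟩
  · intro a b hab
    rw [pathGraph_adj] at hab ⊢
    exact hab
  · intro a b hab
    apply Fin.ext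
    have := congrArg Fin.val hab
    simpa using this

theorem free_mono {W : Type} {m n : ℕ} (h : m ≤ n) (H : SimpleGraph W)
    (hf : (pathGraph m).Free H) : (pathGraph n).Free H :=
  fun hc => hf ((path_contained h).trans hc)

theorem small_of_smallE {G : SimpleGraph V} {t k : ℕ} (ht : 1 ≤ t) (hG : SmallE G t k) :
    Small G (t - 1) k := by
  intro H hH hf
  exact hG H hH (free_mono (by omega) H hf)

theorem hom_closed {n : ℕ} (H : SimpleGraph V) (φ : pathGraph n →g H) (P : V → Prop)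
    (hP : ∀ x y, H.Adj x y → P x → P y) (h0 : ∀ h : 0 < n, P (φ ⟨0, h⟩)) :
    ∀ j : ℕ, ∀ h : j < n, P (φ ⟨j, h⟩) := by
  intro j
  induction j with
  | zero => exact h0
  | succ j ih =>
    intro h
    refine hP _ _ ?_ (ih (by omega))
    apply φ.map_adj
    rw [pathGraph_adj]
    exact Or.inl rfl

variable [Fintype V] [DecidableEq V]

theorem union_free (G : SimpleGraph V) (t : ℕ) (ht : 1 ≤ t) (F : Finset (Finset V))
    (hF : ∀ S ∈ F, S.card = 2 * t) (hFd : ∀ S ∈ F, ∀ S' ∈ F, S ≠ S' → Disjoint S S')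
    (M : Finset V) (N : V → Finset V) (hMF : ∀ u ∈ M, ∀ S ∈ F, u ∉ S)
    (hNF : ∀ u ∈ M, ∀ x ∈ N u, ∀ S ∈ F, x ∉ S) (hc : ∀ u ∈ M, (N u).card ≤ t - 1)
    (hd : ∀ u ∈ M, ∀ u' ∈ M, N u = N u' ∨ Disjoint (N u) (N u')) :
    (pathGraph (2 * t + 1)).Free (tg G F ⊔ bg M N) := by
  rintro ⟨φ⟩
  by_cases h : ∃ S ∈ F, φ ⟨0, by omega⟩ ∈ S
  · obtain ⟨S, hS, h0⟩ := h
    have h1 := hom_closed (tg G F ⊔ bg M N) φ.toHom (fun x => x ∈ S) (by
      intro x y hxy hx
      rcases hxy with hxy | hxy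
      · obtain ⟨-, S', hS', hx', hy'⟩ := hxy
        have : S' = S := by
          by_contra hne
          exact Finset.disjoint_left.1 (hFd _ hS' _ hS hne) hx' hx
        rw [← this]; exact hy'
      · exfalso
        rcases hxy with hxy | hxy
        · exact hMF x hxy.1 S hS hx
        · exact hNF y hxy.1 x hxy.2.2 S hS hx) (fun _ => h0)
    have h2 : (Finset.univ.image φ).card ≤ S.card := by
      apply Finset.card_le_card
      intro x hx
      obtain ⟨j, -, rfl⟩ := Finset.mem_image.1 hx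
      exact h1 j.1 j.2
    have hinj : Function.Injective (⇑φ) := φ.injective
    rw [Finset.card_image_of_injective _ hinj, Finset.card_univ, Fintype.card_fin,
      hF S hS] at h2
    omega
  · push Not at h
    have h1 := hom_closed (tg G F ⊔ bg M N) φ.toHom (fun x => ∀ S ∈ F, x ∉ S) (by
      intro x y hxy hx
      rcases hxy with hxy | hxy
      · obtain ⟨-, S', hS', hx', hy'⟩ := hxy
        exact absurd hx' (hx S' hS')
      · rcases hxy with hxy | hxy
        · exact hNF x hxy.1 y hxy.2.2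
        · exact hMF y hxy.1) (fun _ => h)
    have h2 := bg_free (t - 1) M N hc hd
    refine free_mono (n := 2 * t + 1) (by omega) (bg M N) h2 ⟨⟨⟨fun i => φ i, ?_⟩, φ.injective⟩⟩
    intro a b hab
    have h3 := φ.toHom.map_adj hab
    rcases h3 with h3 | h3
    · exfalso
      obtain ⟨-, S', hS', hx', -⟩ := h3
      exact h1 a.1 a.2 S' hS' hx'
    · exact h3

open Classical in
/-- ordered adjacent pairs -/
noncomputable def prs (H : SimpleGraph V) : Finset (V × V) :=
  Finset.univ.filter (fun p : V × V => H.Adj p.1 p.2)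

theorem mem_prs (H : SimpleGraph V) (p : V × V) : p ∈ prs H ↔ H.Adj p.1 p.2 := by
  classical
  unfold prs
  simp

theorem prs_card (H : SimpleGraph V) : (prs H).card = 2 * H.edgeSet.ncard := by
  classical
  rw [← SimpleGraph.coe_edgeFinset, Set.ncard_coe_finset, ← H.sum_degrees_eq_twice_card_edges]
  unfold prs
  rw [Finset.card_filter, ← Finset.univ_product_univ, Finset.sum_product]
  refine Finset.sum_congr rfl fun v _ => ?_
  rw [← SimpleGraph.card_neighborFinset_eq_degree, SimpleGraph.neighborFinset_eq_filter,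
    Finset.card_filter]

open Classical in
/-- ordered adjacent pairs in a set -/
noncomputable def prsIn (G : SimpleGraph V) (S : Finset V) : Finset (V × V) :=
  (S ×ˢ S).filter (fun p : V × V => G.Adj p.1 p.2)

theorem mem_prsIn (G : SimpleGraph V) (S : Finset V) (p : V × V) :
    p ∈ prsIn G S ↔ (p.1 ∈ S ∧ p.2 ∈ S) ∧ G.Adj p.1 p.2 := by
  classical
  unfold prsIn
  rw [Finset.mem_filter, Finset.mem_product]

theorem prsIn_card (G : SimpleGraph V) (S : Finset V) : ((prsIn G S).card : ℝ) = DD G S := by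
  classical
  unfold prsIn DD
  rw [Finset.card_filter, Finset.sum_product]
  push_cast
  rfl

theorem count (G : SimpleGraph V) (t k : ℕ) (ht : 1 ≤ t) (hG : SmallE G t k)
    (F : Finset (Finset V))
    (hF : ∀ S ∈ F, S.card = 2 * t) (hFd : ∀ S ∈ F, ∀ S' ∈ F, S ≠ S' → Disjoint S S')
    (M : Finset V) (N : V → Finset V) (hMF : ∀ u ∈ M, ∀ S ∈ F, u ∉ S)
    (hNF : ∀ u ∈ M, ∀ x ∈ N u, ∀ S ∈ F, x ∉ S) (hc : ∀ u ∈ M, (N u).card = t - 1)
    (hd : ∀ u ∈ M, ∀ u' ∈ M, N u = N u' ∨ Disjoint (N u) (N u'))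
    (hNM : ∀ u ∈ M, ∀ x ∈ N u, x ∉ M) (hadj : ∀ u ∈ M, ∀ x ∈ N u, G.Adj u x) :
    ∑ S ∈ F, DD G S + 2 * ((t : ℝ) - 1) * M.card < 2 * k := by
  classical
  have h1 : (tg G F ⊔ bg M N).edgeSet.ncard < k := by
    apply hG
    · apply sup_le
      · intro x y hxy
        exact hxy.1
      · exact bg_le G M N hadj
    · exact union_free G t ht F hF hFd M N hMF hNF (fun u hu => (hc u hu).le) hd
  have h2 := prs_card (tg G F ⊔ bg M N)
  have h3 : F.biUnion (prsIn G) ∪ prs (bg M N) ⊆ prs (tg G F ⊔ bg M N) := by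
    intro p hp
    rw [Finset.mem_union, Finset.mem_biUnion] at hp
    rw [mem_prs]
    rcases hp with ⟨S, hS, hp⟩ | hp
    · left
      rw [mem_prsIn] at hp
      exact ⟨hp.2, S, hS, hp.1.1, hp.1.2⟩
    · right
      rwa [mem_prs] at hp
  have h4 : Disjoint (F.biUnion (prsIn G)) (prs (bg M N)) := by
    rw [Finset.disjoint_left]
    intro p hp hp2
    rw [Finset.mem_biUnion] at hp
    obtain ⟨S, hS, hp⟩ := hp
    rw [mem_prsIn] at hp
    rw [mem_prs] at hp2
    rcases hp2 with h | h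
    · exact hMF _ h.1 S hS hp.1.1
    · exact hMF _ h.1 S hS hp.1.2
  have h5 : (F.biUnion (prsIn G)).card = ∑ S ∈ F, (prsIn G S).card := by
    apply Finset.card_biUnion
    intro S hS S' hS' hne
    change Disjoint (prsIn G S) (prsIn G S')
    rw [Finset.disjoint_left]
    intro p hp hp'
    rw [mem_prsIn] at hp hp'
    exact Finset.disjoint_left.1 (hFd S hS S' hS' hne) hp.1.1 hp'.1.1
  have h6 := Finset.card_le_card h3
  rw [Finset.card_union_of_disjoint h4, h5, prs_card, prs_card, bg_card M N hNM,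
    Finset.sum_congr rfl hc, Finset.sum_const, smul_eq_mul] at h6
  have h7 : ((∑ S ∈ F, (prsIn G S).card : ℕ) : ℝ) = ∑ S ∈ F, DD G S := by
    push_cast
    exact Finset.sum_congr rfl fun S _ => prsIn_card G S
  have h8 : ((∑ S ∈ F, (prsIn G S).card : ℕ) : ℝ) + 2 * (M.card * ((t - 1 : ℕ) : ℝ)) ≤
      2 * ((tg G F ⊔ bg M N).edgeSet.ncard : ℝ) := by exact_mod_cast h6
  rw [h7, Nat.cast_sub ht] at h8
  have h9 : ((tg G F ⊔ bg M N).edgeSet.ncard : ℝ) < k := by exact_mod_cast h1
  push_cast at h8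
  linarith

theorem tile_packing_on (t : ℕ) (ht : 1 ≤ t) (δ : ℝ) (hδ : 0 < δ) (hδ1 : δ ≤ 1) :
    ∃ N1 : ℕ, ∀ (V : Type) [Fintype V] [DecidableEq V] (G : SimpleGraph V) (U : Finset V),
      N1 ≤ U.card → ∃ F : Finset (Finset V), (∀ S ∈ F, S ⊆ U) ∧ (∀ S ∈ F, S.card = 2 * t) ∧
        (∀ S ∈ F, ∀ S' ∈ F, S ≠ S' → Disjoint S S') ∧
        t * DD G U / U.card - (t - 1) * U.card - δ * U.card ≤
          ∑ S ∈ F, (DD G S - 4 * (t : ℝ) * (t - 1)) := by
  classical
  obtain ⟨N1, hN1⟩ := tile_packing t ht δ hδ hδ1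
  refine ⟨N1, ?_⟩
  intro V _ _ G U hU
  obtain ⟨F, hF1, hF2, hF3⟩ := hN1 {x // x ∈ U} (G.comap Subtype.val) (by
    rw [Fintype.card_coe]; exact hU)
  have hDD : ∀ S : Finset {x // x ∈ U}, DD (G.comap Subtype.val) S =
      DD G (S.map (Function.Embedding.subtype _)) := by
    intro S
    unfold DD
    rw [Finset.sum_map]
    refine Finset.sum_congr rfl fun x _ => ?_
    rw [Finset.sum_map]
    refine Finset.sum_congr rfl fun y _ => ?_
    rfl
  let em : Finset {x // x ∈ U} ↪ Finset V :=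
    ⟨Finset.map (Function.Embedding.subtype _), Finset.map_injective _⟩
  refine ⟨F.map em, ?_, ?_, ?_, ?_⟩
  · intro S hS
    obtain ⟨S0, hS0, rfl⟩ := Finset.mem_map.1 hS
    intro x hx
    obtain ⟨y, -, rfl⟩ := Finset.mem_map.1 hx
    exact y.2
  · intro S hS
    obtain ⟨S0, hS0, rfl⟩ := Finset.mem_map.1 hS
    change (S0.map (Function.Embedding.subtype _)).card = 2 * t
    rw [Finset.card_map]
    exact hF1 S0 hS0
  · intro S hS S' hS' hne
    obtain ⟨S0, hS0, rfl⟩ := Finset.mem_map.1 hS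
    obtain ⟨S0', hS0', rfl⟩ := Finset.mem_map.1 hS'
    change Disjoint (S0.map (Function.Embedding.subtype _)) (S0'.map (Function.Embedding.subtype _))
    rw [Finset.disjoint_map]
    apply hF2 S0 hS0 S0' hS0'
    intro h
    exact hne (by rw [h])
  · rw [Finset.sum_map]
    have h1 : DD (G.comap Subtype.val) (Finset.univ : Finset {x // x ∈ U}) = DD G U := by
      rw [hDD]
      congr 1
      rw [Finset.univ_eq_attach]
      exact Finset.attach_map_val
    rw [h1, Fintype.card_coe] at hF3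
    refine hF3.trans (le_of_eq ?_)
    refine Finset.sum_congr rfl fun S _ => ?_
    rw [hDD]
    rfl

end Q116.Inv2
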