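import Pool.Agent.Q116.Inv2.Frac
import Pool.Agent.Q116.Inv.Path

/-! # Embedding tiles into regular tuples -/

set_option autoImplicit false

namespace Q116.Inv2

open Finset

variable {α : Type} [DecidableEq α]

open Classical in
/-- all but fewer than `e` vertices of `A` have at least the proportion `d / 2` of each subset of `B`
with at least `e` elements as neighbours -/
def Star (G : SimpleGraph α) (A B : Finset α) (e d : ℝ) : Prop :=
  ∀ B' ⊆ B, e ≤ (B'.card : ℝ) →
    ((A.filter (fun x => ((B'.filter (fun y => G.Adj x y)).card : ℝ) < d / 2 * B'.card)).card : ℝ)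
      < e

open Classical in
lemma star_of_uniform (G : SimpleGraph α) {A B : Finset α} {ε d e : ℝ} (hε : 0 < ε)
    (hU : G.IsUniform ε A B) (hd : d ≤ (G.edgeDensity A B : ℝ)) (hεd : ε ≤ d / 2)
    (heA : ε * A.card ≤ e) (heB : ε * B.card ≤ e) (he : 0 < e) : Star G A B e d := by
  intro B' hB' hcard
  by_contra hcon
  push Not at hcon
  set A' := A.filter (fun x => ((B'.filter (fun y => G.Adj x y)).card : ℝ) < d / 2 * B'.card)
    with hA'
  have hA'A : A' ⊆ A := Finset.filter_subset _ _
  have h1 := hU hA'A hB' (by rw [mul_comm]; linarith) (by rw [mul_comm]; linarith)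
  have hA'0 : (0 : ℝ) < A'.card := by linarith
  have hB'0 : (0 : ℝ) < B'.card := by linarith
  have hcount : ((G.interedges A' B').card : ℝ) =
      ∑ x ∈ A', ((B'.filter (fun y => G.Adj x y)).card : ℝ) := by
    rw [SimpleGraph.interedges_def, Finset.card_filter, Finset.sum_product]
    push_cast
    apply Finset.sum_congr rfl
    intro x _
    rw [Finset.card_filter]
    push_cast
    rfl
  have hlt : ((G.interedges A' B').card : ℝ) < d / 2 * B'.card * A'.card := by
    rw [hcount]
    have hne : A'.Nonempty := by
      rw [← Finset.card_pos]; exact_mod_cast hA'0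
    calc ∑ x ∈ A', ((B'.filter (fun y => G.Adj x y)).card : ℝ) < ∑ _x ∈ A', d / 2 * B'.card := by
          apply Finset.sum_lt_sum_of_nonempty hne
          intro x hx
          exact (Finset.mem_filter.1 hx).2
      _ = d / 2 * B'.card * A'.card := by
          rw [Finset.sum_const, nsmul_eq_mul]; ring
  have hdens : ((G.edgeDensity A' B' : ℚ) : ℝ) < d / 2 := by
    rw [SimpleGraph.edgeDensity_def]
    push_cast
    rw [div_lt_iff₀ (by positivity)]
    calc ((G.interedges A' B').card : ℝ) < d / 2 * B'.card * A'.card := hlt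
      _ = d / 2 * (A'.card * B'.card) := by ring
  rw [abs_lt] at h1
  linarith [h1.1]

open Classical in
/-- Greedy embedding. -/
theorem embed {ι σ : Type} [DecidableEq σ] (G : SimpleGraph α) (V : ι → Finset α) (c : σ → ι)
    (e d : ℝ) (he : 0 ≤ e) (hd : 0 < d) (hd1 : d ≤ 1) (h : ℕ) :
    ∀ (n : ℕ) (s : Finset σ), s.card = n → n ≤ h →
      (∀ j ∈ s, ∀ j' ∈ s, c j ≠ c j' → Star G (V (c j)) (V (c j')) e d) →
      ∀ C : σ → Finset α, (∀ j ∈ s, C j ⊆ V (c j)) →
        (∀ j ∈ s, (h * e + 2) * (2 / d) ^ n ≤ ((C j).card : ℝ)) →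
        ∃ f : σ → Option α, (∀ j ∈ s, ∃ x ∈ C j, f j = some x) ∧
          (∀ j ∈ s, ∀ j' ∈ s, j ≠ j' → f j ≠ f j') ∧
          (∀ j ∈ s, ∀ j' ∈ s, c j ≠ c j' → ∀ x y, f j = some x → f j' = some y → G.Adj x y) := by
  intro n
  induction n with
  | zero =>
    intro s hs _ _ C _ _
    rw [Finset.card_eq_zero] at hs
    subst hs
    exact ⟨fun _ => none, by simp, by simp, by simp⟩
  | succ n ih =>
    intro s hs hnh hstar C hC hsize
    obtain ⟨j0, hj0⟩ : s.Nonempty := by
      rw [← Finset.card_pos]; omega
    set s' := s.erase j0 with hs'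
    have hs'c : s'.card = n := by
      rw [hs', Finset.card_erase_of_mem hj0, hs]; rfl
    have hd2 : 1 ≤ 2 / d := by
      rw [le_div_iff₀ hd]; linarith
    have hlam : 0 < (h * e + 2 : ℝ) := by positivity
    have hpow : ∀ m : ℕ, (1 : ℝ) ≤ (2 / d) ^ m := fun m => one_le_pow₀ hd2
    have hh1 : (1 : ℝ) ≤ h := by
      have : 1 ≤ h := by omega
      exact_mod_cast this
    have hge : ∀ j ∈ s, (h * e + 2 : ℝ) ≤ ((C j).card : ℝ) := by
      intro j hj
      refine le_trans ?_ (hsize j hj)
      have := hpow (n + 1)
      nlinarith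
    let Bd : σ → Finset α := fun j => (V (c j0)).filter
      (fun x => (((C j).filter (fun y => G.Adj x y)).card : ℝ) < d / 2 * (C j).card)
    have hBd : ∀ j ∈ s', c j ≠ c j0 → ((Bd j).card : ℝ) < e := by
      intro j hj hc
      have hjs : j ∈ s := Finset.mem_of_mem_erase hj
      apply hstar j0 hj0 j hjs (Ne.symm hc) (C j) (hC j hjs)
      have := hge j hjs
      nlinarith
    obtain ⟨x, hx, hxB⟩ : ∃ x ∈ C j0, ∀ j ∈ s', c j ≠ c j0 → x ∉ Bd j := by
      by_contra hcon
      push Not at hcon
      have hsub : C j0 ⊆ (s'.filter (fun j => c j ≠ c j0)).biUnion Bd := by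
        intro x hx
        obtain ⟨j, hj, hc, hxj⟩ := hcon x hx
        exact Finset.mem_biUnion.2 ⟨j, Finset.mem_filter.2 ⟨hj, hc⟩, hxj⟩
      have h1 := (Finset.card_le_card hsub).trans Finset.card_biUnion_le
      have h2 : ((C j0).card : ℝ) ≤ ∑ j ∈ s'.filter (fun j => c j ≠ c j0), ((Bd j).card : ℝ) := by
        exact_mod_cast h1
      have h3 : ∑ j ∈ s'.filter (fun j => c j ≠ c j0), ((Bd j).card : ℝ) ≤
          ∑ _j ∈ s'.filter (fun j => c j ≠ c j0), e := by
        apply Finset.sum_le_sum
        intro j hj
        rw [Finset.mem_filter] at hj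
        exact (hBd j hj.1 hj.2).le
      rw [Finset.sum_const, nsmul_eq_mul] at h3
      have h4 : ((s'.filter (fun j => c j ≠ c j0)).card : ℝ) ≤ h := by
        have := Finset.card_filter_le s' (fun j => c j ≠ c j0)
        have : (s'.filter (fun j => c j ≠ c j0)).card ≤ h := by omega
        exact_mod_cast this
      have h5 := hge j0 hj0
      have h6 : ((s'.filter (fun j => c j ≠ c j0)).card : ℝ) * e ≤ h * e := by gcongr
      linarith
    let C' : σ → Finset α := fun j =>
      if c j = c j0 then (C j).erase x else (C j).filter (fun y => G.Adj x y)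
    have hC'C : ∀ j, C' j ⊆ C j := by
      intro j
      simp only [C']
      split_ifs
      · exact Finset.erase_subset _ _
      · exact Finset.filter_subset _ _
    obtain ⟨f, hf1, hf2, hf3⟩ := ih s' hs'c (by omega)
      (fun j hj j' hj' => hstar j (Finset.mem_of_mem_erase hj) j' (Finset.mem_of_mem_erase hj'))
      C' (fun j hj => (hC'C j).trans (hC j (Finset.mem_of_mem_erase hj))) (by
        intro j hj
        have hjs : j ∈ s := Finset.mem_of_mem_erase hj
        have h1 := hsize j hjs
        have h2 := hge j hjs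
        have h3 : d / 2 * ((C j).card : ℝ) ≤ ((C' j).card : ℝ) := by
          simp only [C']
          split_ifs with hc
          · have h4 : ((C j).card : ℝ) - 1 ≤ (((C j).erase x).card : ℝ) := by
              have := Finset.pred_card_le_card_erase (s := C j) (a := x)
              have h5 : (C j).card ≤ ((C j).erase x).card + 1 := by omega
              have h6 : ((C j).card : ℝ) ≤ (((C j).erase x).card : ℝ) + 1 := by exact_mod_cast h5
              linarith
            have h7 : 0 ≤ (h : ℝ) * e := by positivity
            have h8 : d / 2 * ((C j).card : ℝ) ≤ 1 / 2 * ((C j).card : ℝ) := by gcongr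
            linarith
          · have := hxB j hj hc
            simp only [Bd, Finset.mem_filter, not_and, not_lt] at this
            exact this (hC j0 hj0 hx)
        refine le_trans ?_ h3
        have h9 : d / 2 * ((h * e + 2) * (2 / d) ^ (n + 1)) ≤ d / 2 * ((C j).card : ℝ) := by
          gcongr
        refine le_trans (le_of_eq ?_) h9
        rw [pow_succ]
        field_simp)
    refine ⟨Function.update f j0 (some x), ?_, ?_, ?_⟩
    · intro j hj
      by_cases hjj : j = j0
      · subst hjj
        exact ⟨x, hx, by rw [Function.update_self]⟩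
      · obtain ⟨y, hy, hfy⟩ := hf1 j (Finset.mem_erase.2 ⟨hjj, hj⟩)
        exact ⟨y, hC'C j hy, by rw [Function.update_of_ne hjj, hfy]⟩
    · have key : ∀ j ∈ s, j ≠ j0 → Function.update f j0 (some x) j ≠
          Function.update f j0 (some x) j0 := by
        intro j hj hjj
        rw [Function.update_of_ne hjj, Function.update_self]
        obtain ⟨y, hy, hfy⟩ := hf1 j (Finset.mem_erase.2 ⟨hjj, hj⟩)
        rw [hfy]
        intro hxy
        rw [Option.some.injEq] at hxy
        subst hxy
        simp only [C'] at hy
        split_ifs at hy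
        · simp at hy
        · simp at hy
      intro j hj j' hj' hne
      by_cases h1 : j = j0
      · subst h1
        exact (key j' hj' (Ne.symm hne)).symm
      · by_cases h2 : j' = j0
        · subst h2
          exact key j hj h1
        · rw [Function.update_of_ne h1, Function.update_of_ne h2]
          exact hf2 j (Finset.mem_erase.2 ⟨h1, hj⟩) j' (Finset.mem_erase.2 ⟨h2, hj'⟩) hne
    · have key : ∀ j ∈ s, j ≠ j0 → c j ≠ c j0 → ∀ y, f j = some y → G.Adj x y := by
        intro j hj hjj hc y hy
        obtain ⟨z, hz, hfz⟩ := hf1 j (Finset.mem_erase.2 ⟨hjj, hj⟩)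
        rw [hfz, Option.some.injEq] at hy
        subst hy
        simp only [C', if_neg hc, Finset.mem_filter] at hz
        exact hz.2
      intro j hj j' hj' hc y z hy hz
      by_cases h1 : j = j0
      · subst h1
        rw [Function.update_self, Option.some.injEq] at hy
        subst hy
        by_cases h2 : j' = j
        · exact absurd (by rw [h2]) hc
        rw [Function.update_of_ne h2] at hz
        exact key j' hj' h2 (Ne.symm hc) z hz
      · rw [Function.update_of_ne h1] at hy
        by_cases h2 : j' = j0
        · subst h2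
          rw [Function.update_self, Option.some.injEq] at hz
          subst hz
          exact (key j hj h1 hc y hy).symm
        · rw [Function.update_of_ne h2] at hz
          exact hf3 j (Finset.mem_erase.2 ⟨h1, hj⟩) j' (Finset.mem_erase.2 ⟨h2, hj'⟩) hc y z hy hz

end Q116.Inv2
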