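import Pool.Agent.Q116.Inv2.Zykov
import Pool.Agent.H249R2.PM.Farkas

/-! # Fractional packings of tiles -/

set_option autoImplicit false

namespace Q116.Inv2

open Finset

variable {ι : Type} [Fintype ι] [DecidableEq ι]

/-- the tiles as a finite type -/
def Tl (R : SimpleGraph ι) (t : ℕ) : Type :=
  {a : ι → Fin 3 // IsTile R t (fun k => ((a k : Fin 3) : ℕ))}

noncomputable instance (R : SimpleGraph ι) (t : ℕ) : Fintype (Tl R t) := by
  classical
  unfold Tl
  infer_instance

def Tl.val {R : SimpleGraph ι} {t : ℕ} (a : Tl R t) (k : ι) : ℕ := ((a.1 k : Fin 3) : ℕ)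

lemma Tl.isTile {R : SimpleGraph ι} {t : ℕ} (a : Tl R t) : IsTile R t a.val := a.2

lemma card_Tl (R : SimpleGraph ι) (t : ℕ) : Fintype.card (Tl R t) ≤ 3 ^ Fintype.card ι := by
  classical
  have h : Fintype.card (Tl R t) ≤ Fintype.card (ι → Fin 3) :=
    Fintype.card_le_of_injective (fun a : Tl R t => a.1) (fun a b hab => Subtype.ext hab)
  simpa using h

noncomputable def gain {R : SimpleGraph ι} {t : ℕ} (a : Tl R t) : ℝ :=
  ∑ k, ((a.val k : ℝ) - (a.val k : ℝ) ^ 2 / 2)

lemma gain_le {R : SimpleGraph ι} {t : ℕ} (a : Tl R t) : gain a ≤ 2 * t := by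
  unfold gain
  have h : (∑ k, (a.val k : ℝ)) = 2 * t := by exact_mod_cast a.isTile.2.1
  rw [← h]
  apply Finset.sum_le_sum
  intro k _
  have : (0 : ℝ) ≤ (a.val k : ℝ) ^ 2 / 2 := by positivity
  linarith

/-- number of ordered adjacent pairs -/
noncomputable def DR (R : SimpleGraph ι) : ℝ := ∑ i, ∑ j, (1 - Nn R i j)

lemma dual_bound (R : SimpleGraph ι) (t : ℕ) (ht : 1 ≤ t) [Nonempty ι] (y : ι → ℝ)
    (h0 : ∀ k, 0 ≤ y k) (h1 : ∀ a : Tl R t, gain a ≤ ∑ k, (a.val k : ℝ) * y k) :
    ((Fintype.card ι : ℝ) - t * ((Fintype.card ι : ℝ) - DR R / Fintype.card ι)) / 2 ≤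
      ∑ k, y k := by
  classical
  set M : ℝ := (Fintype.card ι : ℝ) with hM
  have hM0 : 0 < M := by
    rw [hM]; exact_mod_cast Fintype.card_pos
  have hz := zykov R t ht (fun k => 1 - y k) (fun k => by have := h0 k; linarith) (by
    intro a ha
    have hlt : ∀ k, a k < 3 := fun k => by have := ha.1 k; omega
    let a' : Tl R t := ⟨fun k => ⟨a k, hlt k⟩, ha⟩
    have h2 := h1 a'
    have hval : ∀ k, a'.val k = a k := fun k => rfl
    unfold gain at h2
    simp only [hval] at h2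
    have e1 : ∑ k, (a k : ℝ) * (1 - y k) = ∑ k, (a k : ℝ) - ∑ k, (a k : ℝ) * y k := by
      rw [← Finset.sum_sub_distrib]
      apply Finset.sum_congr rfl
      intro k _; ring
    rw [Finset.sum_sub_distrib] at h2
    rw [e1]
    linarith) (fun _ => 1 / M) (by
    constructor
    · intro k; positivity
    · rw [Finset.sum_const, Finset.card_univ, nsmul_eq_mul, ← hM]
      field_simp)
  unfold Phi Q row at hz
  have e2 : ∑ k, 1 / M * (1 - y k) = 1 / M * (M - ∑ k, y k) := by
    rw [← Finset.mul_sum, Finset.sum_sub_distrib, Finset.sum_const, Finset.card_univ,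
      nsmul_eq_mul, mul_one]
  have e3 : ∑ i, 1 / M * ∑ j, Nn R i j * (1 / M) = 1 / M ^ 2 * (M ^ 2 - DR R) := by
    have : DR R = M ^ 2 - ∑ i, ∑ j, Nn R i j := by
      unfold DR
      simp_rw [Finset.sum_sub_distrib]
      simp only [Finset.sum_const, Finset.card_univ, nsmul_eq_mul, mul_one]
      rw [← hM]; ring
    rw [this, ← Finset.mul_sum]
    simp_rw [← Finset.sum_mul]
    field_simp
    ring
  rw [e2, e3] at hz
  have h4 : (M - t * (M - DR R / M)) / 2 - ∑ k, y k =
      M / 2 * (2 * (1 / M * (M - ∑ k, y k)) - t * (1 / M ^ 2 * (M ^ 2 - DR R)) - 1) := by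
    field_simp
    ring
  have h5 : M / 2 * (2 * (1 / M * (M - ∑ k, y k)) - t * (1 / M ^ 2 * (M ^ 2 - DR R)) - 1) ≤ 0 :=
    mul_nonpos_of_nonneg_of_nonpos (by positivity) (by linarith)
  linarith

/-- **Fractional packings of tiles with large gain.** -/
theorem fractional (R : SimpleGraph ι) (t : ℕ) (ht : 1 ≤ t) [Nonempty ι] :
    ∃ τ : Tl R t → ℝ, (∀ a, 0 ≤ τ a) ∧ (∀ k, ∑ a, τ a * (a.val k : ℝ) ≤ 1) ∧
      ((Fintype.card ι : ℝ) - t * ((Fintype.card ι : ℝ) - DR R / Fintype.card ι)) / 2 ≤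
        ∑ a, τ a * gain a := by
  classical
  set Gs := ((Fintype.card ι : ℝ) - t * ((Fintype.card ι : ℝ) - DR R / Fintype.card ι)) / 2
    with hGs
  let ℓ : (ι ⊕ Tl R t) → ((ι → ℝ) →ₗ[ℝ] ℝ) := Sum.elim
    (fun i => -(LinearMap.proj i)) (fun a => -(∑ k, (a.val k : ℝ) • LinearMap.proj k))
  let b : (ι ⊕ Tl R t) → ℝ := Sum.elim (fun _ => 0) (fun a => - gain a)
  let f : (ι → ℝ) →ₗ[ℝ] ℝ := -(∑ k, LinearMap.proj k)
  have hl1 : ∀ (i : ι) (y : ι → ℝ), ℓ (Sum.inl i) y = - y i := fun i y => rfl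
  have hl2 : ∀ (a : Tl R t) (y : ι → ℝ), ℓ (Sum.inr a) y = - ∑ k, (a.val k : ℝ) * y k := by
    intro a y
    simp [ℓ]
  have hf : ∀ y : ι → ℝ, f y = - ∑ k, y k := by
    intro y
    simp [f]
  obtain ⟨w0, w, hw0, hw, hid⟩ := Pool.Agent.H249R2.PM.farkas_fin ℓ b f (-Gs) (fun _ => 1)
    (by
      rintro (i | a)
      · rw [hl1]; simp [b]
      · rw [hl2]
        simp only [b, Sum.elim_inr, mul_one, neg_le_neg_iff]
        have h : (∑ k, (a.val k : ℝ)) = 2 * t := by exact_mod_cast a.isTile.2.1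
        rw [h]
        exact gain_le a)
    (by
      intro y hy
      rw [hf]
      have := dual_bound R t ht y (fun k => by
        have := hy (Sum.inl k)
        rw [hl1] at this
        simp only [b, Sum.elim_inl] at this
        linarith) (fun a => by
        have := hy (Sum.inr a)
        rw [hl2] at this
        simp only [b, Sum.elim_inr] at this
        linarith)
      rw [hGs]
      linarith)
  have hid' : ∀ y : ι → ℝ, -Gs + ∑ k, y k = w0 + (∑ i, w (Sum.inl i) * y i +
      ∑ a, w (Sum.inr a) * (- gain a + ∑ k, (a.val k : ℝ) * y k)) := by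
    intro y
    have h := hid y
    rw [hf, Fintype.sum_sum_type] at h
    simp only [hl1, hl2, b, Sum.elim_inl, Sum.elim_inr, zero_sub, neg_neg, sub_neg_eq_add,
      zero_add] at h
    exact h
  refine ⟨fun a => w (Sum.inr a), fun a => hw _, ?_, ?_⟩
  · intro v
    have h0 := hid' (fun _ => 0)
    have h1 := hid' (fun k => if k = v then 1 else 0)
    simp only [Finset.sum_const_zero, mul_zero, add_zero] at h0
    simp only [mul_ite, mul_one, mul_zero, Finset.sum_ite_eq', mem_univ, if_true] at h1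
    simp_rw [mul_add, Finset.sum_add_distrib] at h1
    have := hw (Sum.inl v)
    linarith
  · have h0 := hid' (fun _ => 0)
    simp only [Finset.sum_const_zero, mul_zero, add_zero, mul_neg, Finset.sum_neg_distrib] at h0
    linarith

end Q116.Inv2
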