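import Pool.Agent.Q116.Inv.PathG

/-! # Turán graphs have few edges in path-free subgraphs -/

set_option autoImplicit false

namespace Q116.Inv2

open Finset SimpleGraph Q116.Inv

variable {V : Type} [DecidableEq V] {G : SimpleGraph V} [DecidableRel G.Adj]

/-- Erdős–Gallai theorem for paths, with a sparser bound on small sets. -/
theorem erdos_gallai_sparse (t : ℕ) (ht : 1 ≤ t)
    (hsm : ∀ P : Finset V, P.card ≤ 2 * t → D G P ≤ 2 * (t - 1) * P.card) :
    ∀ (S : Finset V), (∀ p : List V, IsP G S p → p.length ≤ 2 * t) →
    D G S ≤ 2 * (t - 1) * S.card := by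
  intro S
  induction S using Finset.strongInduction with
  | H S ih =>
  intro hS
  by_cases hlow : ∃ v ∈ S, 2 * dg G S v ≤ 2 * t - 1
  · obtain ⟨v, hv, hd⟩ := hlow
    have h1 := ih (S.erase v) (Finset.erase_ssubset hv) (fun p hp => hS p
      ⟨hp.1, hp.2.1, fun x hx => Finset.mem_of_mem_erase (hp.2.2 x hx)⟩)
    rw [D_erase G S v hv]
    have h2 := Finset.card_erase_add_one hv
    rw [← h2, mul_add, mul_one]
    omega
  · push Not at hlow
    rcases S.eq_empty_or_nonempty with rfl | ⟨v0, hv0⟩
    · simp [D]
    · -- a longest path
      have hex : ∃ L, (∃ p : List V, IsP G S p ∧ p.length = L) ∧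
          ∀ p : List V, IsP G S p → p.length ≤ L := by
        classical
        have hb : ∀ L, (∃ p : List V, IsP G S p ∧ p.length = L) → L ≤ 2 * t := by
          rintro L ⟨p, hp, rfl⟩
          exact hS p hp
        have hL0 : ∃ p : List V, IsP G S p ∧ p.length = 1 :=
          ⟨[v0], ⟨by simp, by simp, by simpa using hv0⟩, rfl⟩
        refine ⟨Nat.findGreatest (fun L => ∃ p : List V, IsP G S p ∧ p.length = L) (2 * t), ?_, ?_⟩
        · exact Nat.findGreatest_spec (P := fun L => ∃ p : List V, IsP G S p ∧ p.length = L)
            (hb 1 hL0) hL0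
        · intro p hp
          exact Nat.le_findGreatest (hS p hp) ⟨p, hp, rfl⟩
      obtain ⟨L, ⟨p, hp, hpL⟩, hmax⟩ := hex
      have hL1 : 1 ≤ L := hmax [v0] ⟨by simp, by simp, by simpa using hv0⟩
      have hLm : L ≤ 2 * t := by rw [← hpL]; exact hS p hp
      have hnb0 : ∀ x ∈ S, G.Adj (p[0]'(by omega)) x → x ∈ p := by
        intro x hx hadj
        by_contra hxp
        have : IsP G S (x :: p) := by
          refine ⟨List.nodup_cons.2 ⟨hxp, hp.1⟩, ?_, ?_⟩
          · cases p with
            | nil => simp at hpL; omega
            | cons a l => exact List.IsChain.cons_cons hadj.symm hp.2.1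
          · intro z hz
            rcases List.mem_cons.1 hz with h | h
            · rw [h]; exact hx
            · exact hp.2.2 z h
        have := hmax _ this
        rw [List.length_cons] at this
        omega
      have hnbl : ∀ x ∈ S, G.Adj (p[p.length - 1]'(by omega)) x → x ∈ p := by
        intro x hx hadj
        by_contra hxp
        have : IsP G S (p ++ [x]) := by
          refine ⟨?_, ?_, ?_⟩
          · rw [List.nodup_append]
            refine ⟨hp.1, by simp, ?_⟩
            intro a ha b hb hab
            rw [List.mem_singleton] at hb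
            rw [hab, hb] at ha
            exact hxp ha
          · rw [List.isChain_append]
            refine ⟨hp.2.1, by simp, ?_⟩
            intro u hu w hw
            rw [List.getLast?_eq_getElem?, List.getElem?_eq_getElem (by omega)] at hu
            simp only [List.head?_cons, Option.mem_def, Option.some.injEq] at hu hw
            rw [← hu, ← hw]
            exact hadj
          · intro z hz
            rcases List.mem_append.1 hz with h | h
            · exact hp.2.2 z h
            · rw [List.mem_singleton] at h
              rw [h]; exact hx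
        have := hmax _ this
        rw [List.length_append] at this
        simp at this
        omega
      have hd0 := dg_first S p (by omega) hnb0
      have hdl := dg_last S p (by omega) hnbl
      have hs0 := hlow _ (hp.2.2 (p[0]'(by omega)) (List.getElem_mem _))
      have hsl := hlow _ (hp.2.2 (p[p.length - 1]'(by omega)) (List.getElem_mem _))
      -- crossing
      have hcross : ∃ i, ∃ h : i + 1 < p.length, G.Adj (p[0]'(by omega)) (p[i+1]) ∧
          G.Adj (p[p.length - 1]'(by omega)) (p[i]) := by
        by_contra hcon
        push Not at hcon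
        have hdisj : Disjoint ((Finset.range (p.length - 1)).filter
            (fun i => ∃ h : i + 1 < p.length, G.Adj (p[0]'(by omega)) (p[i+1])))
            ((Finset.range (p.length - 1)).filter
            (fun i => ∃ h : i < p.length, G.Adj (p[p.length - 1]'(by omega)) (p[i]))) := by
          rw [Finset.disjoint_left]
          intro i hi hi'
          rw [Finset.mem_filter] at hi hi'
          obtain ⟨_, h1, h2⟩ := hi
          obtain ⟨_, _, h3⟩ := hi'
          exact hcon i h1 h2 h3
        have hcard := Finset.card_union_of_disjoint hdisj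
        have hsub : (((Finset.range (p.length - 1)).filter
            (fun i => ∃ h : i + 1 < p.length, G.Adj (p[0]'(by omega)) (p[i+1]))) ∪
            ((Finset.range (p.length - 1)).filter
            (fun i => ∃ h : i < p.length, G.Adj (p[p.length - 1]'(by omega)) (p[i])))).card
            ≤ p.length - 1 := by
          refine (Finset.card_le_card (Finset.union_subset (Finset.filter_subset _ _)
            (Finset.filter_subset _ _))).trans ?_
          rw [Finset.card_range]
        omega
      obtain ⟨i, hi, h0, hl⟩ := hcross
      set P : Finset V := p.toFinset with hPdef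
      have hPS : P ⊆ S := fun x hx => hp.2.2 x (List.mem_toFinset.1 hx)
      have hPc : P.card = L := by
        rw [hPdef, List.toFinset_card_of_nodup hp.1, hpL]
      have hno : ∀ x ∈ P, ∀ y ∈ S \ P, ¬ G.Adj x y := by
        intro y hy x hx hadj
        rw [Finset.mem_sdiff] at hx
        obtain ⟨q, hq, hql⟩ := longer S p hp i hi h0 hl x hx.1
          (fun h => hx.2 (List.mem_toFinset.2 h)) y (List.mem_toFinset.1 hy) hadj.symm
        have := hmax q hq
        omega
      rw [D_split G S P hPS hno]
      have h1 := hsm P (by omega)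
      have hss : S \ P ⊂ S := by
        refine Finset.ssubset_iff_subset_ne.2 ⟨Finset.sdiff_subset, ?_⟩
        intro h
        have hc := Finset.card_sdiff_add_card_eq_card hPS
        rw [h] at hc
        omega
      have h2 := ih (S \ P) hss (fun q hq => hS q
        ⟨hq.1, hq.2.1, fun x hx => Finset.sdiff_subset (hq.2.2 x hx)⟩)
      have h3 := Finset.card_sdiff_add_card_eq_card hPS
      rw [← h3, mul_add]
      omega

/-- A graph with a proper `t`-colouring has few edges on small sets. -/
theorem sparse_of_coloring (t : ℕ) (ht : 1 ≤ t) (c : V → Fin t)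
    (hc : ∀ x y, G.Adj x y → c x ≠ c y) (P : Finset V) (hP : P.card ≤ 2 * t) :
    D G P ≤ 2 * (t - 1) * P.card := by
  -- D + ∑ |P_i|^2 ≤ |P|^2
  have h1 : D G P + ∑ x ∈ P, (P.filter (fun y => c x = c y)).card ≤ P.card * P.card := by
    unfold D
    rw [← Finset.sum_add_distrib, ← smul_eq_mul]
    apply Finset.sum_le_card_nsmul
    intro x _
    unfold dg
    rw [← Finset.card_union_of_disjoint]
    · apply Finset.card_le_card
      exact Finset.union_subset (Finset.filter_subset _ _) (Finset.filter_subset _ _)
    · rw [Finset.disjoint_left]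
      intro y hy hy'
      rw [Finset.mem_filter] at hy hy'
      exact hc x y hy.2 hy'.2
  have h2 : ∑ x ∈ P, (P.filter (fun y => c x = c y)).card =
      ∑ i : Fin t, (P.filter (fun y => c y = i)).card ^ 2 := by
    rw [← Finset.sum_fiberwise P c]
    refine Finset.sum_congr rfl fun i _ => ?_
    rw [sq, ← smul_eq_mul]
    rw [← Finset.sum_const]
    refine Finset.sum_congr rfl fun x hx => ?_
    rw [Finset.mem_filter] at hx
    congr 1
    ext y
    simp only [Finset.mem_filter]
    rw [hx.2]
    constructor
    · rintro ⟨a, b⟩; exact ⟨a, b.symm⟩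
    · rintro ⟨a, b⟩; exact ⟨a, b.symm⟩
  have h3 : (∑ i : Fin t, (P.filter (fun y => c y = i)).card) = P.card := by
    rw [Finset.card_eq_sum_card_fiberwise (f := c) (t := Finset.univ) (fun _ _ => Finset.mem_univ _)]
  have h4 : P.card ^ 2 ≤ t * ∑ i : Fin t, (P.filter (fun y => c y = i)).card ^ 2 := by
    have := sq_sum_le_card_mul_sum_sq (s := (Finset.univ : Finset (Fin t)))
      (f := fun i => (P.filter (fun y => c y = i)).card)
    rw [h3, Finset.card_univ, Fintype.card_fin] at this
    exact this
  rw [h2] at h1
  -- t * D ≤ (t-1) |P|^2 ≤ 2 t (t-1) |P|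
  have h5 : t * D G P + P.card ^ 2 ≤ t * (P.card * P.card) := by
    calc t * D G P + P.card ^ 2 ≤ t * D G P +
          t * ∑ i : Fin t, (P.filter (fun y => c y = i)).card ^ 2 := by omega
      _ = t * (D G P + ∑ i : Fin t, (P.filter (fun y => c y = i)).card ^ 2) := by ring
      _ ≤ _ := Nat.mul_le_mul_left _ h1
  obtain ⟨u, rfl⟩ : ∃ u, t = u + 1 := ⟨t - 1, by omega⟩
  rw [Nat.add_sub_cancel]
  have h6 : (u + 1) * D G P ≤ u * (P.card * P.card) := by nlinarith
  have h7 : u * (P.card * P.card) ≤ u * (P.card * (2 * (u + 1))) := by gcongr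
  have h8 : (u + 1) * D G P ≤ (u + 1) * (2 * u * P.card) := by
    calc (u + 1) * D G P ≤ u * (P.card * (2 * (u + 1))) := h6.trans h7
      _ = _ := by ring
  exact Nat.le_of_mul_le_mul_left h8 (by omega)

/-- Path-free subgraphs of a `t`-partite graph. -/
theorem eg_partite {V : Type} [Fintype V] (H : SimpleGraph V) (t : ℕ) (ht : 1 ≤ t)
    (c : V → Fin t) (hc : ∀ x y, H.Adj x y → c x ≠ c y)
    (hfree : (pathGraph (2 * t + 1)).Free H) :
    H.edgeSet.ncard ≤ (t - 1) * Fintype.card V := by
  classical
  have h1 := erdos_gallai_sparse (G := H) t ht (fun P hP => sparse_of_coloring t ht c hc P hP)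
    Finset.univ (fun p hp => by
    by_contra hcon
    push Not at hcon
    exact hfree (copy_of_list H p (2 * t + 1) hp.1 hp.2.1 hcon))
  have h2 : D H Finset.univ = 2 * H.edgeSet.ncard := by
    rw [← SimpleGraph.coe_edgeFinset, Set.ncard_coe_finset, ← H.sum_degrees_eq_twice_card_edges]
    unfold D dg
    refine Finset.sum_congr rfl fun v _ => ?_
    rw [← SimpleGraph.card_neighborFinset_eq_degree, SimpleGraph.neighborFinset_eq_filter]
  rw [h2, Finset.card_univ, mul_assoc] at h1
  omega

end Q116.Inv2
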