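import Pool.Agent.Q116.Inv2.Embed

/-! # Packing tiles greedily -/

set_option autoImplicit false

namespace Q116.Inv2

open Finset

variable {α : Type} [DecidableEq α] {ι : Type} [Fintype ι] [DecidableEq ι]

open Classical in
/-- number of ordered adjacent pairs in `S` -/
noncomputable def DD (G : SimpleGraph α) (S : Finset α) : ℝ :=
  ∑ x ∈ S, ∑ y ∈ S, if G.Adj x y then 1 else 0

open Classical in
theorem embed_tile (G : SimpleGraph α) (V : ι → Finset α) (R : SimpleGraph ι) (t : ℕ)
    (e d : ℝ) (he : 0 ≤ e) (hd : 0 < d) (hd1 : d ≤ 1)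
    (hstar : ∀ i j, R.Adj i j → Star G (V i) (V j) e d)
    (hV : ∀ i j, i ≠ j → Disjoint (V i) (V j))
    (a : Tl R t) (A : ι → Finset α) (hA : ∀ k, A k ⊆ V k)
    (hsize : ∀ k, ((2 * t : ℕ) * e + 2) * (2 / d) ^ (2 * t) ≤ ((A k).card : ℝ)) :
    ∃ S : Finset α, S.card = 2 * t ∧ (∀ x ∈ S, ∃ k, x ∈ A k) ∧
      (∀ k, (S ∩ V k).card ≤ a.val k) ∧ 4 * (t : ℝ) * (t - 1) + 2 * gain a ≤ DD G S := by
  let σ := (Σ k : ι, Fin (a.val k))
  have hcardσ : (Finset.univ : Finset σ).card = 2 * t := by
    rw [Finset.card_univ, Fintype.card_sigma]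
    simp only [Fintype.card_fin]
    exact a.isTile.2.1
  obtain ⟨f, hf1, hf2, hf3⟩ := embed G V (fun p : σ => p.1) e d he hd hd1 (2 * t) (2 * t)
    Finset.univ hcardσ le_rfl (by
      intro p _ q _ hpq
      apply hstar
      apply a.isTile.2.2 _ _ hpq
      · have := p.2.2; omega
      · have := q.2.2; omega) (fun p => A p.1) (fun p _ => hA p.1) (fun p _ => hsize p.1)
  choose g hg1 hg2 using fun p : σ => hf1 p (Finset.mem_univ p)
  have hginj : Function.Injective g := by
    intro p q hpq
    by_contra hne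
    apply hf2 p (mem_univ _) q (mem_univ _) hne
    rw [hg2, hg2, hpq]
  refine ⟨Finset.univ.image g, ?_, ?_, ?_, ?_⟩
  · rw [Finset.card_image_of_injective _ hginj, hcardσ]
  · intro x hx
    obtain ⟨p, -, rfl⟩ := Finset.mem_image.1 hx
    exact ⟨p.1, hg1 p⟩
  · intro k
    have h1 : Finset.univ.image g ∩ V k ⊆ (Finset.univ.filter (fun p : σ => p.1 = k)).image g := by
      intro x hx
      rw [Finset.mem_inter] at hx
      obtain ⟨p, -, rfl⟩ := Finset.mem_image.1 hx.1
      apply Finset.mem_image_of_mem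
      rw [Finset.mem_filter]
      refine ⟨mem_univ _, ?_⟩
      by_contra hne
      exact Finset.disjoint_left.1 (hV _ _ hne) (hA _ (hg1 p)) hx.2
    refine (Finset.card_le_card h1).trans (Finset.card_image_le.trans (le_of_eq ?_))
    rw [Finset.card_filter, Fintype.sum_sigma]
    rw [Finset.sum_eq_single k]
    · simp
    · intro j _ hj
      simp [hj]
    · intro h; exact absurd (mem_univ _) h
  · unfold DD
    rw [Finset.sum_image (fun p _ q _ h => hginj h)]
    have h1 : ∀ p : σ, (∑ y ∈ Finset.univ.image g, if G.Adj (g p) y then (1 : ℝ) else 0) =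
        ∑ q : σ, if G.Adj (g p) (g q) then (1 : ℝ) else 0 := by
      intro p
      rw [Finset.sum_image (fun p _ q _ h => hginj h)]
    simp_rw [h1]
    have h2 : ∑ p : σ, ∑ q : σ, (1 - (if p.1 = q.1 then (1 : ℝ) else 0)) ≤
        ∑ p : σ, ∑ q : σ, (if G.Adj (g p) (g q) then (1 : ℝ) else 0) := by
      apply Finset.sum_le_sum
      intro p _
      apply Finset.sum_le_sum
      intro q _
      by_cases hpq : p.1 = q.1
      · rw [if_pos hpq]
        split_ifs <;> norm_num
      · rw [if_neg hpq, if_pos (hf3 p (mem_univ _) q (mem_univ _) hpq _ _ (hg2 p) (hg2 q))]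
        norm_num
    refine le_trans (le_of_eq ?_) h2
    have hsumR : (∑ k, (a.val k : ℝ)) = 2 * t := by exact_mod_cast a.isTile.2.1
    have h3 : ∀ p : σ, ∑ q : σ, (if p.1 = q.1 then (1 : ℝ) else 0) = a.val p.1 := by
      intro p
      rw [Fintype.sum_sigma]
      rw [Finset.sum_eq_single p.1]
      · simp
      · intro j _ hj
        simp [Ne.symm hj]
      · intro h; exact absurd (mem_univ _) h
    simp_rw [Finset.sum_sub_distrib, h3]
    have h4 : ∑ _p : σ, ∑ _q : σ, (1 : ℝ) = (2 * t) * (2 * t) := by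
      simp only [Finset.sum_const, nsmul_eq_mul, mul_one]
      rw [hcardσ]
      push_cast
      ring
    have h5 : ∑ p : σ, (a.val p.1 : ℝ) = ∑ k, (a.val k : ℝ) ^ 2 := by
      rw [Fintype.sum_sigma]
      apply Finset.sum_congr rfl
      intro k _
      simp only [Finset.sum_const, Finset.card_univ, Fintype.card_fin, nsmul_eq_mul]
      ring
    rw [h4, h5]
    unfold gain
    rw [Finset.sum_sub_distrib, hsumR, ← Finset.sum_div]
    ring

open Classical in
/-- Greedy packing of a multiset of tiles. -/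
theorem pack (G : SimpleGraph α) (V : ι → Finset α) (R : SimpleGraph ι) (t : ℕ) (ht : 1 ≤ t)
    (e d : ℝ) (he : 0 ≤ e) (hd : 0 < d) (hd1 : d ≤ 1)
    (hstar : ∀ i j, R.Adj i j → Star G (V i) (V j) e d)
    (hV : ∀ i j, i ≠ j → Disjoint (V i) (V j)) (L : Multiset (Tl R t)) :
    (∀ k, ((2 * t : ℕ) * e + 2) * (2 / d) ^ (2 * t) + ((L.map (fun a => a.val k)).sum : ℕ) ≤
      ((V k).card : ℝ)) →
    ∃ F : Finset (Finset α), (∀ S ∈ F, S.card = 2 * t) ∧
      (∀ S ∈ F, ∀ S' ∈ F, S ≠ S' → Disjoint S S') ∧
      (∀ k, (F.biUnion id ∩ V k).card ≤ (L.map (fun a => a.val k)).sum) ∧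
      (L.map (fun a => 2 * gain a)).sum ≤ ∑ S ∈ F, (DD G S - 4 * (t : ℝ) * (t - 1)) := by
  induction L using Multiset.induction_on with
  | empty =>
    intro _
    exact ⟨∅, by simp, by simp, by simp, by simp⟩
  | cons a L ih =>
    intro hsize
    obtain ⟨F, h1, h2, h3, h4⟩ := ih (by
      intro k
      refine le_trans ?_ (hsize k)
      rw [Multiset.map_cons, Multiset.sum_cons]
      push_cast
      have : (0 : ℝ) ≤ a.val k := Nat.cast_nonneg _
      linarith)
    set X := F.biUnion id with hX
    obtain ⟨S, s1, s2, s3, s4⟩ := embed_tile G V R t e d he hd hd1 hstar hV a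
      (fun k => V k \ X) (fun k => Finset.sdiff_subset) (by
        intro k
        have h5 := hsize k
        rw [Multiset.map_cons, Multiset.sum_cons] at h5
        have h6 := h3 k
        have h7 : (V k \ X).card + (X ∩ V k).card = (V k).card := by
          rw [Finset.inter_comm]
          exact Finset.card_sdiff_add_card_inter _ _
        have h8 : ((V k \ X).card : ℝ) + (X ∩ V k).card = (V k).card := by exact_mod_cast h7
        have h9 : ((X ∩ V k).card : ℝ) ≤ ((L.map (fun a => a.val k)).sum : ℕ) := by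
          exact_mod_cast h6
        push_cast at h5 h9 ⊢
        have : (0 : ℝ) ≤ a.val k := Nat.cast_nonneg _
        linarith)
    have hSX : Disjoint S X := by
      rw [Finset.disjoint_left]
      intro x hx
      obtain ⟨k, hk⟩ := s2 x hx
      exact (Finset.mem_sdiff.1 hk).2
    have hSF : S ∉ F := by
      intro hS
      have h5 : S ⊆ X := Finset.subset_biUnion_of_mem id hS
      have h6 : S = ∅ := by
        rw [← Finset.disjoint_self_iff_empty]
        exact Finset.disjoint_of_subset_right h5 hSX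
      rw [h6] at s1
      simp at s1
      omega
    have hdS : ∀ S' ∈ F, Disjoint S S' := fun S' hS' =>
      Finset.disjoint_of_subset_right (Finset.subset_biUnion_of_mem id hS') hSX
    refine ⟨insert S F, ?_, ?_, ?_, ?_⟩
    · intro S' hS'
      rw [Finset.mem_insert] at hS'
      rcases hS' with rfl | hS'
      · exact s1
      · exact h1 S' hS'
    · intro S1 hS1 S2 hS2 hne
      rw [Finset.mem_insert] at hS1 hS2
      rcases hS1 with rfl | hS1 <;> rcases hS2 with rfl | hS2
      · exact absurd rfl hne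
      · exact hdS S2 hS2
      · exact (hdS S1 hS1).symm
      · exact h2 S1 hS1 S2 hS2 hne
    · intro k
      rw [Multiset.map_cons, Multiset.sum_cons, Finset.biUnion_insert, id,
        Finset.union_inter_distrib_right]
      exact (Finset.card_union_le _ _).trans (add_le_add (s3 k) (h3 k))
    · rw [Multiset.map_cons, Multiset.sum_cons, Finset.sum_insert hSF]
      linarith

end Q116.Inv2
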