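import Pool.Agent.Q116.Inv2.Pack

/-! # Packing tiles in dense graphs -/

set_option autoImplicit false

namespace Q116.Inv2

open Finset

variable {α : Type} [DecidableEq α] [Fintype α]

/-- the parts as a type -/
abbrev Pt (P : Finpartition (Finset.univ : Finset α)) : Type := {A : Finset α // A ∈ P.parts}

/-- the reduced graph -/
def Red (G : SimpleGraph α) (P : Finpartition (Finset.univ : Finset α)) (ε d : ℝ) :
    SimpleGraph (Pt P) :=
  open Classical in
  { Adj := fun A B => A ≠ B ∧ G.IsUniform ε A.1 B.1 ∧ d ≤ (G.edgeDensity A.1 B.1 : ℝ)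
    symm := ⟨fun A B h => ⟨h.1.symm, SimpleGraph.IsUniform.symm h.2.1, by
      rw [SimpleGraph.edgeDensity_comm]; exact h.2.2⟩⟩
    loopless := ⟨fun A h => h.1 rfl⟩ }

open Classical in
/-- number of adjacent pairs between two sets -/
noncomputable def blk (G : SimpleGraph α) (A B : Finset α) : ℝ :=
  ∑ x ∈ A, ∑ y ∈ B, if G.Adj x y then 1 else 0

lemma blk_le (G : SimpleGraph α) (A B : Finset α) : blk G A B ≤ A.card * B.card := by
  classical
  unfold blk
  calc ∑ x ∈ A, ∑ y ∈ B, (if G.Adj x y then (1 : ℝ) else 0) ≤ ∑ x ∈ A, ∑ y ∈ B, (1 : ℝ) := by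
        apply Finset.sum_le_sum
        intro x _
        apply Finset.sum_le_sum
        intro y _
        split_ifs <;> norm_num
    _ = A.card * B.card := by simp

lemma blk_density (G : SimpleGraph α) (A B : Finset α) [DecidableRel G.Adj] :
    blk G A B = (G.edgeDensity A B : ℝ) * (A.card * B.card) := by
  classical
  have hcount : ((G.interedges A B).card : ℝ) = blk G A B := by
    unfold blk
    rw [SimpleGraph.interedges_def, Finset.card_filter, Finset.sum_product]
    push_cast
    apply Finset.sum_congr rfl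
    intro x _
    apply Finset.sum_congr rfl
    intro y _
    congr
  rw [← hcount, SimpleGraph.edgeDensity_def]
  push_cast
  by_cases h : (A.card : ℝ) * B.card = 0
  · have h1 : ((G.interedges A B).card : ℝ) = 0 := by
      have h2 := blk_le G A B
      rw [← hcount, h] at h2
      exact le_antisymm h2 (Nat.cast_nonneg _)
    rw [h1]; simp
  · rw [div_mul_cancel₀ _ h]

open Classical in
lemma DD_le (G : SimpleGraph α) (P : Finpartition (Finset.univ : Finset α)) (ε d s : ℝ)
    (hd : 0 ≤ d) (hε : 0 ≤ ε) (hP : P.IsUniform G ε) (hs : ∀ A ∈ P.parts, (A.card : ℝ) ≤ s) :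
    DD G Finset.univ ≤ s ^ 2 * (P.parts.card + ε * (P.parts.card : ℝ) ^ 2 +
      d * (P.parts.card : ℝ) ^ 2 + DR (Red G P ε d)) := by
  have h1 : DD G Finset.univ = ∑ A ∈ P.parts, ∑ B ∈ P.parts, blk G A B := by
    unfold DD blk
    have key : ∀ f : α → ℝ, ∑ x, f x = ∑ A ∈ P.parts, ∑ x ∈ A, f x := by
      intro f
      conv_lhs => rw [← P.biUnion_parts]
      rw [Finset.sum_biUnion]
      · rfl
      · exact P.disjoint
    rw [key]
    apply Finset.sum_congr rfl
    intro A _
    rw [Finset.sum_comm]
    rw [key]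
    apply Finset.sum_congr rfl
    intro B _
    rw [Finset.sum_comm]
  have hDR : DR (Red G P ε d) = ∑ A ∈ P.parts, ∑ B ∈ P.parts,
      (if A ≠ B ∧ G.IsUniform ε A B ∧ d ≤ (G.edgeDensity A B : ℝ) then (1 : ℝ) else 0) := by
    unfold DR
    rw [← Finset.sum_coe_sort P.parts]
    apply Finset.sum_congr rfl
    intro A _
    rw [← Finset.sum_coe_sort P.parts]
    apply Finset.sum_congr rfl
    intro B _
    unfold Nn Red
    by_cases h : A.1 ≠ B.1 ∧ G.IsUniform ε A.1 B.1 ∧ d ≤ (G.edgeDensity A.1 B.1 : ℝ)
    · have h' : A ≠ B := fun e => h.1 (by rw [e])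
      simp only [h', h, ne_eq, not_false_eq_true, and_self, if_true, sub_zero]
    · by_cases h' : A = B
      · subst h'
        simp
      · have h'' : A.1 ≠ B.1 := fun e => h' (Subtype.ext e)
        simp only [h'', ne_eq, not_false_eq_true, true_and] at h
        simp only [h', h, ne_eq, not_false_eq_true, true_and, and_false, if_false, sub_self]
  have hnu : ((P.nonUniforms G ε).card : ℝ) = ∑ A ∈ P.parts, ∑ B ∈ P.parts,
      (if A ≠ B ∧ ¬ G.IsUniform ε A B then (1 : ℝ) else 0) := by
    have : P.nonUniforms G ε = (P.parts ×ˢ P.parts).filter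
        (fun p => p.1 ≠ p.2 ∧ ¬ G.IsUniform ε p.1 p.2) := by
      ext ⟨A, B⟩
      rw [Finpartition.mk_mem_nonUniforms, Finset.mem_filter, Finset.mem_product]
      tauto
    rw [this, Finset.card_filter, Finset.sum_product]
    push_cast
    rfl
  have hpt : ∀ A ∈ P.parts, ∀ B ∈ P.parts, blk G A B ≤ s ^ 2 *
      ((if A = B then (1 : ℝ) else 0) + (if A ≠ B ∧ ¬ G.IsUniform ε A B then (1 : ℝ) else 0) + d +
      (if A ≠ B ∧ G.IsUniform ε A B ∧ d ≤ (G.edgeDensity A B : ℝ) then (1 : ℝ) else 0)) := by
    intro A hA B hB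
    have hAB : (A.card : ℝ) * B.card ≤ s ^ 2 := by
      have h2 := hs A hA
      have h3 := hs B hB
      have h4 : (0 : ℝ) ≤ A.card := Nat.cast_nonneg _
      have h5 : (0 : ℝ) ≤ B.card := Nat.cast_nonneg _
      nlinarith
    have hb := blk_le G A B
    have hs2 : 0 ≤ s ^ 2 := sq_nonneg s
    have hds : 0 ≤ s ^ 2 * d := mul_nonneg hs2 hd
    by_cases h1 : A = B
    · simp only [h1, if_true, ne_eq, not_true_eq_false, false_and, if_false] at hb hAB ⊢
      nlinarith
    · by_cases h2 : G.IsUniform ε A B
      · by_cases h3 : d ≤ (G.edgeDensity A B : ℝ)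
        · simp only [h1, h2, h3, if_false, if_true, ne_eq, not_false_eq_true, not_true_eq_false,
            and_false, and_self]
          nlinarith
        · simp only [h1, h2, h3, if_false, ne_eq, not_false_eq_true, not_true_eq_false,
            and_false]
          rw [blk_density]
          push Not at h3
          have h6 : (0 : ℝ) ≤ (A.card : ℝ) * B.card := by positivity
          nlinarith
      · simp only [h1, h2, if_false, if_true, ne_eq, not_false_eq_true, true_and, false_and,
          and_false]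
        nlinarith
  rw [h1]
  calc ∑ A ∈ P.parts, ∑ B ∈ P.parts, blk G A B ≤ ∑ A ∈ P.parts, ∑ B ∈ P.parts, s ^ 2 *
      ((if A = B then (1 : ℝ) else 0) + (if A ≠ B ∧ ¬ G.IsUniform ε A B then (1 : ℝ) else 0) + d +
      (if A ≠ B ∧ G.IsUniform ε A B ∧ d ≤ (G.edgeDensity A B : ℝ) then (1 : ℝ) else 0)) := by
        apply Finset.sum_le_sum
        intro A hA
        apply Finset.sum_le_sum
        intro B hB
        exact hpt A hA B hB
    _ = s ^ 2 * (P.parts.card + (P.nonUniforms G ε).card + d * (P.parts.card : ℝ) ^ 2 +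
        DR (Red G P ε d)) := by
        simp_rw [← Finset.mul_sum, Finset.sum_add_distrib]
        rw [← hDR, ← hnu]
        congr 3
        · congr 1
          rw [Finset.sum_congr rfl (fun A hA => by
            rw [Finset.sum_ite_eq P.parts A (fun _ => (1 : ℝ)), if_pos hA])]
          simp
        · simp only [Finset.sum_const, nsmul_eq_mul]
          ring
    _ ≤ _ := by
        have h7 : ((P.nonUniforms G ε).card : ℝ) ≤ ε * (P.parts.card : ℝ) ^ 2 := by
          have h8 : ((P.nonUniforms G ε).card : ℝ) ≤
              ((P.parts.card * (P.parts.card - 1) : ℕ) : ℝ) * ε := hP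
          refine h8.trans ?_
          have h9 : ((P.parts.card * (P.parts.card - 1) : ℕ) : ℝ) ≤ (P.parts.card : ℝ) ^ 2 := by
            have : P.parts.card * (P.parts.card - 1) ≤ P.parts.card ^ 2 := by
              rw [sq]
              exact Nat.mul_le_mul_left _ (Nat.sub_le _ _)
            exact_mod_cast this
          nlinarith
        have hs2 : 0 ≤ s ^ 2 := sq_nonneg s
        gcongr

lemma multiset_sum {κ M' : Type} [Fintype κ] [AddCommMonoid M'] (n : κ → ℕ) (f : κ → M') :
    ((∑ a, n a • ({a} : Multiset κ)).map f).sum = ∑ a, n a • f a := by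
  let φ : Multiset κ →+ M' :=
    { toFun := fun s => (s.map f).sum
      map_zero' := by simp
      map_add' := fun a b => by simp }
  have h := map_sum φ (fun a => n a • ({a} : Multiset κ)) Finset.univ
  have h2 : ∀ a, φ (n a • ({a} : Multiset κ)) = n a • f a := by
    intro a
    rw [map_nsmul]
    simp [φ]
  simp_rw [h2] at h
  exact h

end Q116.Inv2
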