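import Mathlib

/-! # Rounding with values 0, 1, 2 -/

set_option autoImplicit false

namespace Q116.Inv2

open Finset

variable {ι : Type} [Fintype ι] [DecidableEq ι]

/-- the piecewise linear interpolation of `b ^ 2` on `[0, 2]` -/
noncomputable def g (b : ℝ) : ℝ := if b ≤ 1 then b else 3 * b - 2

/-- not one of `0, 1, 2` -/
def Bad (b : ℝ) : Prop := b ≠ 0 ∧ b ≠ 1 ∧ b ≠ 2

lemma g_cell (l b : ℝ) (hl : l = 0 ∨ l = 1) (h1 : l ≤ b) (h2 : b ≤ l + 1) :
    g b = (2 * l + 1) * (b - l) + l := by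
  unfold g
  rcases hl with rfl | rfl
  · rw [if_pos (by linarith)]
    ring
  · by_cases h : b ≤ 1
    · have : b = 1 := le_antisymm h h1
      rw [if_pos h, this]; ring
    · rw [if_neg h]; ring

lemma cell_of (b : ℝ) (h0 : 0 ≤ b) (h2 : b ≤ 2) (hb : Bad b) :
    ∃ l : ℝ, (l = 0 ∨ l = 1) ∧ l < b ∧ b < l + 1 := by
  rcases lt_or_gt_of_ne hb.2.1 with h | h
  · exact ⟨0, Or.inl rfl, lt_of_le_of_ne h0 (Ne.symm hb.1), by linarith⟩
  · exact ⟨1, Or.inr rfl, h, by
      have := lt_of_le_of_ne h2 hb.2.2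
      linarith⟩

lemma not_bad_cell (l : ℝ) (hl : l = 0 ∨ l = 1) : ¬ Bad l ∧ ¬ Bad (l + 1) := by
  unfold Bad
  rcases hl with rfl | rfl <;> norm_num

/-- the objective -/
noncomputable def psi (u b : ι → ℝ) : ℝ := ∑ i, (g (b i) / 2 - b i * u i)

/-- the vector `b + s (e i - e j)` -/
noncomputable def mv (b : ι → ℝ) (i j : ι) (s : ℝ) : ι → ℝ :=
  Function.update (Function.update b i (b i + s)) j (b j - s)

lemma mv_i (b : ι → ℝ) {i j : ι} (hij : i ≠ j) (s : ℝ) : mv b i j s i = b i + s := by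
  unfold mv
  rw [Function.update_of_ne hij, Function.update_self]

lemma mv_j (b : ι → ℝ) (i j : ι) (s : ℝ) : mv b i j s j = b j - s := by
  unfold mv
  rw [Function.update_self]

lemma mv_other (b : ι → ℝ) {i j k : ι} (hi : k ≠ i) (hj : k ≠ j) (s : ℝ) :
    mv b i j s k = b k := by
  unfold mv
  rw [Function.update_of_ne hj, Function.update_of_ne hi]

lemma sum_mv (F : ι → ℝ → ℝ) (b : ι → ℝ) {i j : ι} (hij : i ≠ j) (s : ℝ) :
    ∑ k, F k (mv b i j s k) = ∑ k, F k (b k) + (F i (b i + s) - F i (b i)) +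
      (F j (b j - s) - F j (b j)) := by
  have h : ∀ c : ι → ℝ, ∑ k, F k (c k) = F i (c i) + (F j (c j) +
      ∑ k ∈ (univ.erase i).erase j, F k (c k)) := by
    intro c
    rw [← Finset.add_sum_erase _ _ (mem_univ i),
      ← Finset.add_sum_erase _ _ (mem_erase.2 ⟨hij.symm, mem_univ j⟩)]
  rw [h (mv b i j s), h b, mv_i b hij, mv_j]
  have h2 : ∑ k ∈ (univ.erase i).erase j, F k (mv b i j s k) =
      ∑ k ∈ (univ.erase i).erase j, F k (b k) := by
    apply Finset.sum_congr rfl
    intro k hk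
    rw [mem_erase, mem_erase] at hk
    rw [mv_other b hk.2.1 hk.1]
  rw [h2]
  ring

lemma step_pos (u b : ι → ℝ) {i j : ι} (hij : i ≠ j) (hb : ∀ k, 0 ≤ b k ∧ b k ≤ 2)
    (li lj : ℝ) (hli : li = 0 ∨ li = 1) (hlj : lj = 0 ∨ lj = 1)
    (hi1 : li < b i) (hi2 : b i < li + 1) (hj1 : lj < b j) (hj2 : b j < lj + 1)
    (hco : (li - u i) - (lj - u j) ≤ 0) :
    ∃ b' : ι → ℝ, (∀ k, 0 ≤ b' k ∧ b' k ≤ 2) ∧ ∑ k, b' k = ∑ k, b k ∧ psi u b' ≤ psi u b ∧
      (∀ k, b' k ≠ 0 → b k ≠ 0) ∧ (∀ k, Bad (b' k) → Bad (b k)) ∧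
      ∃ k, ¬ Bad (b' k) ∧ Bad (b k) := by
  set s := min (li + 1 - b i) (b j - lj) with hs
  have hs0 : 0 < s := lt_min (by linarith) (by linarith)
  have hs1 : s ≤ li + 1 - b i := min_le_left _ _
  have hs2 : s ≤ b j - lj := min_le_right _ _
  have hbi : Bad (b i) := by
    unfold Bad
    rcases hli with h | h <;> rw [h] at hi1 hi2 <;>
      exact ⟨by linarith, by first | linarith | (intro h'; linarith), by
        intro h'; linarith⟩
  have hbj : Bad (b j) := by
    unfold Bad
    rcases hlj with h | h <;> rw [h] at hj1 hj2 <;>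
      exact ⟨by linarith, by first | linarith | (intro h'; linarith), by
        intro h'; linarith⟩
  refine ⟨mv b i j s, ?_, ?_, ?_, ?_, ?_, ?_⟩
  · intro k
    by_cases hki : k = i
    · subst hki
      rw [mv_i b hij]
      constructor
      · linarith [(hb k).1]
      · rcases hli with h | h <;> rw [h] at hs1 <;> linarith
    · by_cases hkj : k = j
      · subst hkj
        rw [mv_j]
        constructor
        · rcases hlj with h | h <;> rw [h] at hs2 <;> linarith
        · linarith [(hb k).2]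
      · rw [mv_other b hki hkj]
        exact hb k
  · have := sum_mv (fun _ r => r) b hij s
    rw [this]
    ring
  · have := sum_mv (fun k r => g r / 2 - r * u k) b hij s
    unfold psi
    rw [this]
    have e1 : g (b i + s) = (2 * li + 1) * (b i + s - li) + li :=
      g_cell li _ hli (by linarith) (by linarith)
    have e2 : g (b i) = (2 * li + 1) * (b i - li) + li := g_cell li _ hli hi1.le hi2.le
    have e3 : g (b j - s) = (2 * lj + 1) * (b j - s - lj) + lj :=
      g_cell lj _ hlj (by linarith) (by linarith)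
    have e4 : g (b j) = (2 * lj + 1) * (b j - lj) + lj := g_cell lj _ hlj hj1.le hj2.le
    rw [e1, e2, e3, e4]
    nlinarith
  · intro k
    by_cases hki : k = i
    · subst hki; intro _; exact hbi.1
    · by_cases hkj : k = j
      · subst hkj; intro _; exact hbj.1
      · rw [mv_other b hki hkj]; exact id
  · intro k
    by_cases hki : k = i
    · subst hki; intro _; exact hbi
    · by_cases hkj : k = j
      · subst hkj; intro _; exact hbj
      · rw [mv_other b hki hkj]; exact id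
  · rcases le_total (li + 1 - b i) (b j - lj) with h | h
    · refine ⟨i, ?_, hbi⟩
      rw [mv_i b hij]
      have : s = li + 1 - b i := min_eq_left h
      rw [this]
      have e : b i + (li + 1 - b i) = li + 1 := by ring
      rw [e]
      exact (not_bad_cell li hli).2
    · refine ⟨j, ?_, hbj⟩
      rw [mv_j]
      have : s = b j - lj := min_eq_right h
      rw [this]
      have e : b j - (b j - lj) = lj := by ring
      rw [e]
      exact (not_bad_cell lj hlj).1

open Classical in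
/-- Rounding. -/
theorem round (u : ι → ℝ) (N : ℕ) : ∀ (n : ℕ) (b : ι → ℝ), (univ.filter (fun k => Bad (b k))).card = n →
    (∀ k, 0 ≤ b k ∧ b k ≤ 2) → ∑ k, b k = N →
    ∃ a : ι → ℕ, (∀ k, a k ≤ 2) ∧ ∑ k, a k = N ∧ (∀ k, a k ≠ 0 → b k ≠ 0) ∧
      ∑ k, ((a k : ℝ) ^ 2 / 2 - a k * u k) ≤ psi u b := by
  intro n
  induction n using Nat.strong_induction_on with
  | _ n ih =>
  intro b hn hb hsum
  by_cases hex : ∃ i, Bad (b i)
  · obtain ⟨i, hi⟩ := hex
    obtain ⟨j, hij, hj⟩ : ∃ j, i ≠ j ∧ Bad (b j) := by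
      by_contra hcon
      push Not at hcon
      -- all others are integers
      have hint : ∀ k, k ≠ i → ∃ z : ℤ, b k = z := by
        intro k hk
        have := hcon k (Ne.symm hk)
        unfold Bad at this
        by_cases h0 : b k = 0
        · exact ⟨0, by rw [h0]; simp⟩
        by_cases h1 : b k = 1
        · exact ⟨1, by rw [h1]; simp⟩
        by_cases h2 : b k = 2
        · exact ⟨2, by rw [h2]; simp⟩
        exact absurd ⟨h0, h1, h2⟩ this
      have hsumint : ∃ z : ℤ, ∑ k ∈ univ.erase i, b k = z := by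
        choose! z hz using hint
        refine ⟨∑ k ∈ univ.erase i, z k, ?_⟩
        push_cast
        exact Finset.sum_congr rfl fun k hk => hz k (mem_erase.1 hk).1
      obtain ⟨z, hz⟩ := hsumint
      have h1 := Finset.add_sum_erase univ b (mem_univ i)
      rw [hsum, hz] at h1
      have h2 : b i = ((N - z : ℤ) : ℝ) := by push_cast; linarith
      have h3 : (0 : ℝ) ≤ ((N - z : ℤ) : ℝ) := by rw [← h2]; exact (hb i).1
      have h4 : ((N - z : ℤ) : ℝ) ≤ 2 := by rw [← h2]; exact (hb i).2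
      have h5 : (0 : ℤ) ≤ N - z := by exact_mod_cast h3
      have h6 : (N - z : ℤ) ≤ 2 := by exact_mod_cast h4
      have h7 : (N - z : ℤ) = 0 ∨ (N - z : ℤ) = 1 ∨ (N - z : ℤ) = 2 := by omega
      rw [h2] at hi
      unfold Bad at hi
      rcases h7 with h | h | h <;> rw [h] at hi <;> norm_num at hi
    obtain ⟨li, hli, hi1, hi2⟩ := cell_of _ (hb i).1 (hb i).2 hi
    obtain ⟨lj, hlj, hj1, hj2⟩ := cell_of _ (hb j).1 (hb j).2 hj
    have key : ∃ b' : ι → ℝ, (∀ k, 0 ≤ b' k ∧ b' k ≤ 2) ∧ ∑ k, b' k = ∑ k, b k ∧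
        psi u b' ≤ psi u b ∧ (∀ k, b' k ≠ 0 → b k ≠ 0) ∧ (∀ k, Bad (b' k) → Bad (b k)) ∧
        ∃ k, ¬ Bad (b' k) ∧ Bad (b k) := by
      rcases le_total ((li - u i) - (lj - u j)) 0 with h | h
      · exact step_pos u b hij hb li lj hli hlj hi1 hi2 hj1 hj2 h
      · exact step_pos u b hij.symm hb lj li hlj hli hj1 hj2 hi1 hi2 (by linarith)
    obtain ⟨b', h1, h2, h3, h4, h5, k0, h6, h7⟩ := key
    have hlt : (univ.filter (fun k => Bad (b' k))).card < n := by
      rw [← hn]
      apply Finset.card_lt_card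
      rw [Finset.ssubset_iff_of_subset]
      · exact ⟨k0, by simpa using h7, by simpa using h6⟩
      · intro k hk
        rw [mem_filter] at hk ⊢
        exact ⟨hk.1, h5 k hk.2⟩
    obtain ⟨a, ha1, ha2, ha3, ha4⟩ := ih _ hlt b' rfl h1 (by rw [h2, hsum])
    exact ⟨a, ha1, ha2, fun k hk => h4 k (ha3 k hk), ha4.trans h3⟩
  · push Not at hex
    have hval : ∀ k, ∃ m : ℕ, m ≤ 2 ∧ b k = m := by
      intro k
      have := hex k
      unfold Bad at this
      by_cases h0 : b k = 0
      · exact ⟨0, by norm_num, by rw [h0]; simp⟩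
      by_cases h1 : b k = 1
      · exact ⟨1, by norm_num, by rw [h1]; simp⟩
      by_cases h2 : b k = 2
      · exact ⟨2, by norm_num, by rw [h2]; simp⟩
      exact absurd ⟨h0, h1, h2⟩ this
    choose a ha1 ha2 using hval
    refine ⟨a, ha1, ?_, ?_, ?_⟩
    · have : (∑ k, (a k : ℝ)) = N := by
        rw [← hsum]
        exact Finset.sum_congr rfl fun k _ => (ha2 k).symm
      exact_mod_cast this
    · intro k hk h0
      rw [ha2 k] at h0
      exact hk (by exact_mod_cast h0)
    · unfold psi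
      apply le_of_eq
      apply Finset.sum_congr rfl
      intro k _
      rw [ha2 k]
      have : a k = 0 ∨ a k = 1 ∨ a k = 2 := by
        have := ha1 k
        omega
      unfold g
      rcases this with h | h | h <;> rw [h] <;> norm_num

/-- The rounding used for the clique inequality. -/
theorem exists_tile (u : ι → ℝ) (t : ℕ) (hu : ∀ k, 0 ≤ u k ∧ u k ≤ 1) (hsum : ∑ k, u k = t) :
    ∃ a : ι → ℕ, (∀ k, a k ≤ 2) ∧ ∑ k, a k = 2 * t ∧ (∀ k, a k ≠ 0 → u k ≠ 0) ∧
      ∑ k, ((a k : ℝ) ^ 2 / 2 - a k * u k) ≤ ∑ k, u k * (1 - u k) := by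
  classical
  obtain ⟨a, h1, h2, h3, h4⟩ := round u (2 * t) _ (fun k => 2 * u k) rfl
    (fun k => ⟨by linarith [(hu k).1], by linarith [(hu k).2]⟩) (by
      rw [← Finset.mul_sum, hsum]; push_cast; ring)
  refine ⟨a, h1, h2, fun k hk h0 => h3 k hk (by simp only [h0, mul_zero]), h4.trans ?_⟩
  unfold psi
  apply Finset.sum_le_sum
  intro k _
  have h5 := (hu k).1
  have h6 := (hu k).2
  unfold g
  by_cases h : 2 * u k ≤ 1
  · rw [if_pos h]
    nlinarith
  · rw [if_neg h]
    nlinarith [sq_nonneg (1 - u k)]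

end Q116.Inv2
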