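import Pool.Agent.Q116.Inv2.Regular

/-! # Packing tiles in dense graphs: the theorem -/

set_option autoImplicit false

namespace Q116.Inv2

open Finset

lemma gain_nonneg {ι : Type} [Fintype ι] [DecidableEq ι] {R : SimpleGraph ι} {t : ℕ}
    (a : Tl R t) : 0 ≤ gain a := by
  unfold gain
  apply Finset.sum_nonneg
  intro k _
  have h := a.isTile.1 k
  have h0 : (a.val k : ℝ) ≤ 2 := by exact_mod_cast h
  have h1 : (0 : ℝ) ≤ a.val k := Nat.cast_nonneg _
  nlinarith

lemma DR_le {ι : Type} [Fintype ι] [DecidableEq ι] (R : SimpleGraph ι) :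
    DR R ≤ (Fintype.card ι : ℝ) ^ 2 := by
  classical
  unfold DR
  calc ∑ i, ∑ j, (1 - Nn R i j) ≤ ∑ _i : ι, ∑ _j : ι, (1 : ℝ) := by
        apply Finset.sum_le_sum
        intro i _
        apply Finset.sum_le_sum
        intro j _
        have : 0 ≤ Nn R i j := by
          unfold Nn
          split_ifs <;> norm_num
        linarith
    _ = (Fintype.card ι : ℝ) ^ 2 := by
        simp [sq]

lemma final_numeric (t M N x s η ε q Γ DRR DDG W δ : ℝ) (ht : 1 ≤ t) (hη0 : 0 < η)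
    (hη1 : η ≤ 1 / 18) (hε0 : 0 < ε) (hεη : ε ≤ η / 8) (hM0 : 0 < M) (hMη : 1 / M ≤ η)
    (hN0 : 0 < N) (hxM : x * M = N) (hx0 : 0 < x) (h1x : 1 ≤ η / 4 * x) (hs : s = x + 1)
    (hDR0 : 0 ≤ DRR) (hDR1 : DRR ≤ M ^ 2)
    (hDD : DDG ≤ s ^ 2 * (M + ε * M ^ 2 + η * M ^ 2 + DRR)) (hq1 : (1 - η) * x ≤ q)
    (hΓ0 : 0 ≤ Γ) (hΓ1 : M - t * (M - DRR / M) ≤ Γ) (hΓ2 : Γ ≤ 2 * M) (hW : W ≤ η * N)
    (hδ : 18 * η * t = δ) :
    t * DDG / N - (t - 1) * N - δ * N ≤ q * Γ - W := by
  obtain ⟨r, hrM⟩ : ∃ r, DRR = r * M ^ 2 := ⟨DRR / M ^ 2, by field_simp⟩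
  have hM2 : 0 < M ^ 2 := by positivity
  have hr1 : r ≤ 1 := by
    rw [hrM] at hDR1
    by_contra h
    push Not at h
    nlinarith
  have hr0 : 0 ≤ r := by
    rw [hrM] at hDR0
    by_contra h
    push Not at h
    nlinarith
  have hs0 : 0 < s := by linarith
  have hs1 : s ≤ (1 + η) * x := by
    have : η / 4 * x ≤ η * x := by gcongr; linarith
    linarith
  have hs2 : s ^ 2 ≤ (1 + 3 * η) * x ^ 2 := by
    calc s ^ 2 ≤ ((1 + η) * x) ^ 2 := by gcongr
      _ = (1 + η) ^ 2 * x ^ 2 := by ring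
      _ ≤ (1 + 3 * η) * x ^ 2 := by
          gcongr
          nlinarith
  have hDD2 : DDG ≤ (1 + 3 * η) * (3 * η + r) * N ^ 2 := by
    have h1 : M + ε * M ^ 2 + η * M ^ 2 + DRR ≤ (3 * η + r) * M ^ 2 := by
      rw [hrM]
      have h2 : M ≤ η * M ^ 2 := by
        have := mul_le_mul_of_nonneg_right hMη hM2.le
        have h3 : 1 / M * M ^ 2 = M := by field_simp
        linarith
      have h4 : ε * M ^ 2 ≤ η * M ^ 2 := by gcongr; linarith
      linarith
    have h0 : 0 ≤ M + ε * M ^ 2 + η * M ^ 2 + DRR := by positivity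
    calc DDG ≤ s ^ 2 * (M + ε * M ^ 2 + η * M ^ 2 + DRR) := hDD
      _ ≤ ((1 + 3 * η) * x ^ 2) * ((3 * η + r) * M ^ 2) := by gcongr
      _ = (1 + 3 * η) * (3 * η + r) * (x * M) ^ 2 := by ring
      _ = _ := by rw [hxM]
  have hDD3 : t * DDG / N ≤ t * ((r + 15 * η) * N) := by
    rw [div_le_iff₀ hN0]
    have h1 : (1 + 3 * η) * (3 * η + r) ≤ r + 15 * η := by nlinarith
    have ht0 : 0 ≤ t := by linarith
    calc t * DDG ≤ t * ((1 + 3 * η) * (3 * η + r) * N ^ 2) := by gcongr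
      _ ≤ t * ((r + 15 * η) * N ^ 2) := by gcongr
      _ = t * ((r + 15 * η) * N) * N := by ring
  -- lower bound
  have hqΓ : x * Γ - 2 * η * N ≤ q * Γ := by
    have h1 : (1 - η) * x * Γ ≤ q * Γ := mul_le_mul_of_nonneg_right hq1 hΓ0
    have h2 : η * x * Γ ≤ η * x * (2 * M) := by gcongr
    have h3 : η * x * (2 * M) = 2 * η * N := by rw [← hxM]; ring
    linarith
  have hxΓ : N * (1 - t + t * r) ≤ x * Γ := by
    have h1 : x * (M - t * (M - DRR / M)) ≤ x * Γ := by gcongr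
    have h2 : x * (M - t * (M - DRR / M)) = N * (1 - t + t * r) := by
      rw [hrM, ← hxM]
      field_simp
      ring
    linarith
  have hη3 : 3 * η * N ≤ 3 * η * t * N := by
    have : 3 * η * N * 1 ≤ 3 * η * N * t := by gcongr
    linarith
  have hδN : δ * N = 18 * η * t * N := by rw [← hδ]
  nlinarith

theorem tile_packing (t : ℕ) (ht : 1 ≤ t) (δ : ℝ) (hδ : 0 < δ) (hδ1 : δ ≤ 1) :
    ∃ N1 : ℕ, ∀ (α : Type) [Fintype α] [DecidableEq α] (G : SimpleGraph α),
      N1 ≤ Fintype.card α → ∃ F : Finset (Finset α), (∀ S ∈ F, S.card = 2 * t) ∧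
        (∀ S ∈ F, ∀ S' ∈ F, S ≠ S' → Disjoint S S') ∧
        t * DD G Finset.univ / Fintype.card α - (t - 1) * Fintype.card α - δ * Fintype.card α ≤
          ∑ S ∈ F, (DD G S - 4 * (t : ℝ) * (t - 1)) := by
  classical
  have htR : (1 : ℝ) ≤ t := by exact_mod_cast ht
  set η : ℝ := δ / (18 * t) with hη
  have hη0 : 0 < η := by positivity
  have hη1 : η ≤ 1 / 18 := by
    rw [hη, div_le_div_iff₀ (by positivity) (by norm_num)]
    nlinarith
  have hηδ : 18 * η * t = δ := by
    rw [hη]; field_simp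
  set c0 : ℝ := (2 / η) ^ (2 * t) with hc0
  have h2η : 1 ≤ 2 / η := by
    rw [le_div_iff₀ hη0]; linarith
  have hc1 : 1 ≤ c0 := one_le_pow₀ h2η
  set ε : ℝ := η / (8 * t * c0) with hε
  have hε0 : 0 < ε := by positivity
  have hεc : 4 * t * ε * c0 = η / 2 := by
    rw [hε]; field_simp; norm_num
  have hεη : ε ≤ η / 8 := by
    rw [hε]
    apply div_le_div_of_nonneg_left hη0.le (by norm_num)
    nlinarith
  set l : ℕ := ⌈1 / η⌉₊ with hl
  have hl1 : 1 / η ≤ l := Nat.le_ceil _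
  have hlpos : 1 ≤ l := by
    have h0 : (0 : ℝ) < l := lt_of_lt_of_le (by positivity) hl1
    exact_mod_cast h0
  obtain ⟨B, hB⟩ : ∃ B : ℕ, B = SzemerediRegularity.bound ε l := ⟨_, rfl⟩
  obtain ⟨N1, hN1⟩ := exists_nat_ge (max (l : ℝ) ((8 * B * c0 + 4 * B + 4 * t * 3 ^ B) / η))
  refine ⟨N1, ?_⟩
  intro α _ _ G hN
  set N : ℝ := (Fintype.card α : ℝ) with hNdef
  have hNN1 : (N1 : ℝ) ≤ N := by rw [hNdef]; exact_mod_cast hN
  have hNl : (l : ℝ) ≤ N := ((le_max_left _ _).trans hN1).trans hNN1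
  have hNW : 8 * B * c0 + 4 * B + 4 * t * 3 ^ B ≤ η * N := by
    have := ((le_max_right _ _).trans hN1).trans hNN1
    rwa [div_le_iff₀' hη0] at this
  obtain ⟨P, hP1, hP2, hP3, hP4⟩ := szemeredi_regularity (α := α) G (ε := ε) (l := l) hε0 (by
    rw [hNdef] at hNl; exact_mod_cast hNl)
  set M : ℝ := (P.parts.card : ℝ) with hM
  have hMl : (l : ℝ) ≤ M := by rw [hM]; exact_mod_cast hP2
  rw [← hB] at hP3
  have hMB : M ≤ B := by rw [hM]; exact_mod_cast hP3
  have hM1 : 1 ≤ M := le_trans (by exact_mod_cast hlpos) hMl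
  have hM0 : 0 < M := by linarith
  have hMη : 1 / M ≤ η := by
    rw [div_le_iff₀ hM0]
    have := hl1.trans hMl
    rwa [div_le_iff₀' hη0] at this
  have hcB : (0 : ℝ) ≤ 8 * B * c0 := by positivity
  have h3B : (0 : ℝ) ≤ 4 * t * 3 ^ B := by positivity
  have hBn : (0 : ℝ) ≤ 4 * B := by positivity
  have hN0 : 0 < N := by
    have : 0 < η * N := by
      have : (0 : ℝ) < 4 * t * 3 ^ B := by positivity
      linarith
    exact (mul_pos_iff_of_pos_left hη0).1 this
  have hMN : 4 * M ≤ η * N := by linarith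
  set x : ℝ := N / M with hx
  have hx0 : 0 < x := by positivity
  have hxM : x * M = N := by rw [hx]; field_simp
  have h1x : 1 ≤ η / 4 * x := by
    rw [hx, ← mul_div_assoc, le_div_iff₀ hM0]
    linarith
  have hc0x : 2 * c0 ≤ η / 4 * x := by
    rw [hx, ← mul_div_assoc, le_div_iff₀ hM0]
    have : 8 * M * c0 ≤ 8 * B * c0 := by gcongr
    linarith
  have h3M : 4 * t * (3 : ℝ) ^ P.parts.card ≤ η * N := by
    have : (3 : ℝ) ^ P.parts.card ≤ 3 ^ B := pow_le_pow_right₀ (by norm_num) hP3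
    have : 4 * t * (3 : ℝ) ^ P.parts.card ≤ 4 * t * 3 ^ B := by gcongr
    linarith
  -- sizes of the parts
  set s : ℝ := x + 1 with hs
  have hsz1 : ∀ A ∈ P.parts, (A.card : ℝ) ≤ s := by
    intro A hA
    have h1 := hP1.card_part_le_average_add_one hA
    have h2 : (A.card : ℝ) ≤ ((Finset.univ : Finset α).card / P.parts.card : ℕ) + 1 := by
      exact_mod_cast h1
    have h3 : (((Finset.univ : Finset α).card / P.parts.card : ℕ) : ℝ) ≤ x := by
      rw [hx, hNdef, hM, ← Finset.card_univ]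
      exact Nat.cast_div_le
    linarith
  have hsz2 : ∀ A ∈ P.parts, x - 1 ≤ (A.card : ℝ) := by
    intro A hA
    have h1 := hP1.average_le_card_part hA
    have h2 : (((Finset.univ : Finset α).card / P.parts.card : ℕ) : ℝ) ≤ A.card := by
      exact_mod_cast h1
    have h3 : x < (((Finset.univ : Finset α).card / P.parts.card : ℕ) : ℝ) + 1 := by
      rw [hx, hNdef, hM, ← Finset.card_univ, div_lt_iff₀ (by rw [← hM]; exact hM0)]
      have := Nat.lt_div_mul_add (a := (Finset.univ : Finset α).card) (b := P.parts.card) (by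
        have : (0 : ℝ) < P.parts.card := hM0
        exact_mod_cast this)
      have h4 : (((Finset.univ : Finset α).card : ℕ) : ℝ) <
          (((Finset.univ : Finset α).card / P.parts.card : ℕ) : ℝ) * P.parts.card +
            P.parts.card := by exact_mod_cast this
      linarith
    linarith
  have hs2x : s ≤ 2 * x := by
    have : η / 4 * x ≤ 1 * x := by gcongr; linarith
    linarith
  have hs0 : 0 < s := by linarith
  set e : ℝ := ε * s with he
  have he0 : 0 < e := by positivity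
  set R := Red G P ε η with hR
  have hstar : ∀ i j : Pt P, R.Adj i j → Star G i.1 j.1 e η := by
    intro i j hij
    refine star_of_uniform G hε0 hij.2.1 hij.2.2 (by linarith) ?_ ?_ he0
    · exact mul_le_mul_of_nonneg_left (hsz1 i.1 i.2) hε0.le
    · exact mul_le_mul_of_nonneg_left (hsz1 j.1 j.2) hε0.le
  have hcardι : (Fintype.card (Pt P) : ℝ) = M := by
    rw [hM]
    congr 1
    exact Fintype.card_coe _
  haveI : Nonempty (Pt P) := by
    have h0 : 0 < P.parts.card := by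
      have : (0 : ℝ) < P.parts.card := hM0
      exact_mod_cast this
    obtain ⟨A, hA⟩ := Finset.card_pos.1 h0
    exact ⟨⟨A, hA⟩⟩
  obtain ⟨τ, hτ0, hτ1, hτ2⟩ := fractional R t ht
  rw [hcardι] at hτ2
  set Γ : ℝ := 2 * ∑ a, τ a * gain a with hΓ
  have hΓ1 : M - t * (M - DR R / M) ≤ Γ := by rw [hΓ]; linarith
  have hΓ2 : Γ ≤ 2 * M := by
    have h1 : ∑ a, τ a * gain a ≤ ∑ a, τ a * ∑ k, (a.val k : ℝ) := by
      apply Finset.sum_le_sum
      intro a _
      apply mul_le_mul_of_nonneg_left _ (hτ0 a)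
      have := gain_le a
      have h2 : (∑ k, (a.val k : ℝ)) = 2 * t := by exact_mod_cast a.isTile.2.1
      rw [h2]; exact this
    have h3 : ∑ a, τ a * ∑ k, (a.val k : ℝ) = ∑ k, ∑ a, τ a * (a.val k : ℝ) := by
      simp_rw [Finset.mul_sum]
      exact Finset.sum_comm
    have h4 : ∑ k, ∑ a, τ a * (a.val k : ℝ) ≤ ∑ _k : Pt P, (1 : ℝ) :=
      Finset.sum_le_sum fun k _ => hτ1 k
    have h5 : ∑ _k : Pt P, (1 : ℝ) = M := by
      rw [Finset.sum_const, Finset.card_univ, nsmul_eq_mul, mul_one, hcardι]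
    rw [hΓ]
    linarith
  have hΓ0 : 0 ≤ Γ := by
    rw [hΓ]
    have : 0 ≤ ∑ a, τ a * gain a :=
      Finset.sum_nonneg fun a _ => mul_nonneg (hτ0 a) (gain_nonneg a)
    linarith
  set θ : ℝ := ((2 * t : ℕ) * e + 2) * (2 / η) ^ (2 * t) with hθ
  have hθ1 : θ ≤ 3 * η / 4 * x := by
    have h1 : θ = 2 * t * ε * c0 * s + 2 * c0 := by
      rw [hθ, ← hc0, he]; push_cast; ring
    rw [h1]
    have h2 : 2 * t * ε * c0 * s ≤ 2 * t * ε * c0 * (2 * x) := by gcongr
    have h3 : 2 * t * ε * c0 * (2 * x) = (4 * t * ε * c0) * x := by ring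
    rw [h3, hεc] at h2
    linarith
  have hθ0 : 0 ≤ θ := by positivity
  set q : ℝ := x - 1 - θ with hq
  have hq1 : (1 - η) * x ≤ q := by rw [hq]; linarith
  have hqx : q ≤ x := by rw [hq]; linarith
  have hq0 : 0 ≤ q := le_trans (mul_nonneg (by linarith) hx0.le) hq1
  let n : Tl R t → ℕ := fun a => ⌊τ a * q⌋₊
  have hn1 : ∀ a, (n a : ℝ) ≤ τ a * q := fun a => Nat.floor_le (mul_nonneg (hτ0 a) hq0)
  have hn2 : ∀ a, τ a * q - 1 ≤ (n a : ℝ) := fun a => by
    have := Nat.lt_floor_add_one (τ a * q)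
    have h2 : (n a : ℝ) = ⌊τ a * q⌋₊ := rfl
    rw [h2]; linarith
  obtain ⟨F, hF1, hF2, -, hF4⟩ := pack G (fun i : Pt P => i.1) R t ht e η he0.le hη0
    (by linarith) hstar (fun i j hij => by
      apply P.disjoint i.2 j.2
      intro h
      exact hij (Subtype.ext h)) (∑ a, n a • ({a} : Multiset (Tl R t))) (by
      intro k
      rw [multiset_sum n (fun a => a.val k), ← hθ]
      have h1 : ((∑ a, n a • a.val k : ℕ) : ℝ) ≤ q := by
        simp only [smul_eq_mul]
        push_cast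
        calc ∑ a, (n a : ℝ) * (a.val k : ℝ) ≤ ∑ a, (τ a * (a.val k : ℝ)) * q := by
              apply Finset.sum_le_sum
              intro a _
              have := mul_le_mul_of_nonneg_right (hn1 a) (Nat.cast_nonneg (α := ℝ) (a.val k))
              linarith
          _ = (∑ a, τ a * (a.val k : ℝ)) * q := by rw [← Finset.sum_mul]
          _ ≤ 1 * q := by
              apply mul_le_mul_of_nonneg_right (hτ1 k) hq0
          _ = q := one_mul q
      have h2 := hsz2 k.1 k.2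
      have h3 : θ + q = x - 1 := by rw [hq]; ring
      linarith)
  refine ⟨F, hF1, hF2, ?_⟩
  refine le_trans ?_ hF4
  rw [multiset_sum n (fun a => 2 * gain a)]
  have hlow : q * Γ - 4 * t * (3 : ℝ) ^ P.parts.card ≤ ∑ a, n a • (2 * gain a) := by
    have h1 : ∑ a, (τ a * q - 1) * (2 * gain a) ≤ ∑ a, n a • (2 * gain a) := by
      apply Finset.sum_le_sum
      intro a _
      rw [nsmul_eq_mul]
      have := gain_nonneg a
      apply mul_le_mul_of_nonneg_right (hn2 a) (by linarith)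
    have h2 : ∑ a, (τ a * q - 1) * (2 * gain a) = q * Γ - ∑ a : Tl R t, 2 * gain a := by
      rw [hΓ]
      have : ∀ a ∈ (Finset.univ : Finset (Tl R t)), (τ a * q - 1) * (2 * gain a) =
          2 * q * (τ a * gain a) - 2 * gain a := fun a _ => by ring
      rw [Finset.sum_congr rfl this, Finset.sum_sub_distrib, ← Finset.mul_sum]
      ring
    have h3 : ∑ a : Tl R t, 2 * gain a ≤ 4 * t * (3 : ℝ) ^ P.parts.card := by
      calc ∑ a : Tl R t, 2 * gain a ≤ ∑ _a : Tl R t, 4 * (t : ℝ) := by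
            apply Finset.sum_le_sum
            intro a _
            have := gain_le a
            linarith
        _ = (Fintype.card (Tl R t) : ℝ) * (4 * t) := by
            rw [Finset.sum_const, Finset.card_univ, nsmul_eq_mul]
        _ ≤ (3 : ℝ) ^ P.parts.card * (4 * t) := by
            have h4 := card_Tl R t
            have h5 : Fintype.card (Pt P) = P.parts.card := Fintype.card_coe _
            rw [h5] at h4
            have h6 : (Fintype.card (Tl R t) : ℝ) ≤ (3 : ℝ) ^ P.parts.card := by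
              exact_mod_cast h4
            gcongr
        _ = _ := by ring
    linarith
  refine le_trans ?_ hlow
  have hDD := DD_le G P ε η s hη0.le hε0.le hP4 hsz1
  have hDR0 : 0 ≤ DR R := by
    unfold DR
    apply Finset.sum_nonneg
    intro i _
    apply Finset.sum_nonneg
    intro j _
    unfold Nn
    split_ifs <;> norm_num
  have hDR1 : DR R ≤ M ^ 2 := by
    have := DR_le R
    rwa [hcardι] at this
  exact final_numeric t M N x s η ε q Γ (DR R) (DD G Finset.univ) _ δ htR hη0 hη1 hε0 hεη hM0 hMη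
    hN0 hxM hx0 h1x hs hDR0 hDR1 hDD hq1 hΓ0 hΓ1 hΓ2 h3M hηδ

end Q116.Inv2
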