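import Pool.Agent.Q116.Inv2.Combine

/-! # The upper bound -/

set_option autoImplicit false

namespace Q116.Inv2

open Finset SimpleGraph Q116.Inv

variable {V : Type} [Fintype V] [DecidableEq V]

theorem DD_eq (G : SimpleGraph V) [DecidableRel G.Adj] (U : Finset V) :
    DD G U = ∑ v ∈ U, ((U.filter (fun x => G.Adj v x)).card : ℝ) := by
  unfold DD
  refine Finset.sum_congr rfl fun v _ => ?_
  rw [Finset.card_filter]
  push_cast
  refine Finset.sum_congr rfl fun x _ => ?_
  by_cases h : G.Adj v x <;> simp [h]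

theorem DD_le_sq (G : SimpleGraph V) (U : Finset V) : DD G U ≤ (U.card : ℝ) ^ 2 := by
  classical
  rw [DD_eq]
  have : ∀ v ∈ U, ((U.filter (fun x => G.Adj v x)).card : ℝ) ≤ U.card := by
    intro v _
    exact_mod_cast Finset.card_filter_le _ _
  refine (Finset.sum_le_sum this).trans ?_
  rw [Finset.sum_const, nsmul_eq_mul, sq]

theorem DD_le_tile (G : SimpleGraph V) (t : ℕ) (ht : 1 ≤ t) (S : Finset V)
    (hS : S.card = 2 * t) : DD G S - 4 * (t : ℝ) * (t - 1) ≤ 2 * t := by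
  classical
  rw [DD_eq]
  have : ∀ v ∈ S, ((S.filter (fun x => G.Adj v x)).card : ℝ) ≤ 2 * t - 1 := by
    intro v hv
    have h1 : S.filter (fun x => G.Adj v x) ⊆ S.erase v := by
      intro y hy
      rw [Finset.mem_filter] at hy
      exact Finset.mem_erase.2 ⟨hy.2.ne', hy.1⟩
    have h2 := Finset.card_le_card h1
    rw [Finset.card_erase_of_mem hv, hS] at h2
    have h3 : ((S.filter (fun x => G.Adj v x)).card : ℝ) ≤ ((2 * t - 1 : ℕ) : ℝ) := by
      exact_mod_cast h2
    rw [Nat.cast_sub (by omega)] at h3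
    push_cast at h3
    exact h3
  have h4 := Finset.sum_le_sum this
  rw [Finset.sum_const, nsmul_eq_mul, hS] at h4
  push_cast at h4
  nlinarith

/-- Counting edges through the large-degree vertices. -/
theorem edges_le2 (G : SimpleGraph V) [DecidableRel G.Adj] (k : ℕ) (d : ℝ) (hd : 0 < d)
    (hW : (supp G).card ≤ 2 * k) :
    (G.edgeSet.ncard : ℝ) ≤
      DD G (Finset.univ.filter (fun u => d * k ≤ (G.degree u : ℝ))) / 2 + 2 * d * k ^ 2 := by
  set U := Finset.univ.filter (fun u => d * k ≤ (G.degree u : ℝ)) with hU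
  have h1 : 2 * (G.edgeSet.ncard : ℝ) = ∑ v, (G.degree v : ℝ) := by
    rw [← SimpleGraph.coe_edgeFinset, Set.ncard_coe_finset]
    exact_mod_cast G.sum_degrees_eq_twice_card_edges.symm
  have hdeg : ∀ v, (G.degree v : ℝ) = ((U.filter (fun x => G.Adj v x)).card : ℝ) +
      ((Uᶜ.filter (fun x => G.Adj v x)).card : ℝ) := by
    intro v
    rw [← SimpleGraph.card_neighborFinset_eq_degree, SimpleGraph.neighborFinset_eq_filter]
    rw [← Nat.cast_add, ← Finset.card_union_of_disjoint]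
    · congr 2
      rw [← Finset.filter_union, Finset.union_compl]
    · exact Finset.disjoint_filter_filter disjoint_compl_right
  have hlow : ∑ v ∈ Uᶜ, (G.degree v : ℝ) ≤ 2 * d * k ^ 2 := by
    have h2 : ∑ v ∈ Uᶜ, (G.degree v : ℝ) ≤ ∑ v ∈ supp G, d * k := by
      have h3 : ∑ v ∈ Uᶜ, (G.degree v : ℝ) = ∑ v ∈ Uᶜ ∩ supp G, (G.degree v : ℝ) := by
        symm
        apply Finset.sum_subset Finset.inter_subset_left
        intro v hv hv2
        have h4 : v ∉ supp G := fun h => hv2 (Finset.mem_inter.2 ⟨hv, h⟩)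
        unfold supp at h4
        rw [Finset.mem_filter] at h4
        push Not at h4
        have h5 := h4 (Finset.mem_univ v)
        have h6 : G.degree v = 0 := by
          rw [← SimpleGraph.card_neighborFinset_eq_degree, Finset.card_eq_zero]
          ext x
          simp [h5 x]
        rw [h6]; simp
      rw [h3]
      calc ∑ v ∈ Uᶜ ∩ supp G, (G.degree v : ℝ) ≤ ∑ v ∈ Uᶜ ∩ supp G, d * k := by
            apply Finset.sum_le_sum
            intro v hv
            rw [Finset.mem_inter, Finset.mem_compl, hU, Finset.mem_filter] at hv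
            have := hv.1
            push Not at this
            exact (this (Finset.mem_univ v)).le
        _ ≤ ∑ v ∈ supp G, d * k := by
            apply Finset.sum_le_sum_of_subset_of_nonneg Finset.inter_subset_right
            intro _ _ _
            positivity
    refine h2.trans ?_
    rw [Finset.sum_const, nsmul_eq_mul]
    have : ((supp G).card : ℝ) ≤ 2 * k := by exact_mod_cast hW
    calc ((supp G).card : ℝ) * (d * k) ≤ 2 * k * (d * k) :=
          mul_le_mul_of_nonneg_right this (by positivity)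
      _ = _ := by ring
  have hcross : ∑ v ∈ U, ((Uᶜ.filter (fun x => G.Adj v x)).card : ℝ) ≤
      ∑ v ∈ Uᶜ, (G.degree v : ℝ) := by
    have h2 : ∑ v ∈ U, ((Uᶜ.filter (fun x => G.Adj v x)).card : ℝ) =
        ∑ v ∈ Uᶜ, ((U.filter (fun x => G.Adj v x)).card : ℝ) := by
      simp_rw [Finset.card_filter]
      push_cast
      rw [Finset.sum_comm]
      simp_rw [SimpleGraph.adj_comm]
    rw [h2]
    apply Finset.sum_le_sum
    intro v _
    rw [hdeg v]
    linarith [(Nat.cast_nonneg _ : (0 : ℝ) ≤ ((Uᶜ.filter (fun x => G.Adj v x)).card : ℝ))]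
  have hsum : ∑ v, (G.degree v : ℝ) = ∑ v ∈ U, (G.degree v : ℝ) + ∑ v ∈ Uᶜ, (G.degree v : ℝ) :=
    (Finset.sum_add_sum_compl U _).symm
  have hU2 : ∑ v ∈ U, (G.degree v : ℝ) = ∑ v ∈ U, ((U.filter (fun x => G.Adj v x)).card : ℝ) +
      ∑ v ∈ U, ((Uᶜ.filter (fun x => G.Adj v x)).card : ℝ) := by
    rw [← Finset.sum_add_distrib]
    exact Finset.sum_congr rfl fun v _ => hdeg v
  rw [DD_eq]
  linarith

theorem tiles_drop (G : SimpleGraph V) (t : ℕ) (ht : 1 ≤ t) (F : Finset (Finset V))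
    (hF : ∀ S ∈ F, S.card = 2 * t) (hFd : ∀ S ∈ F, ∀ S' ∈ F, S ≠ S' → Disjoint S S')
    (Z : Finset V) :
    ∑ S ∈ F, (DD G S - 4 * (t : ℝ) * (t - 1)) - 2 * t * Z.card ≤
      ∑ S ∈ F.filter (fun S => Disjoint S Z), (DD G S - 4 * (t : ℝ) * (t - 1)) := by
  classical
  have h1 := Finset.sum_filter_add_sum_filter_not F (fun S => Disjoint S Z)
    (fun S => (DD G S - 4 * (t : ℝ) * (t - 1)))
  have h2 : ∑ S ∈ F.filter (fun S => ¬ Disjoint S Z), (DD G S - 4 * (t : ℝ) * (t - 1)) ≤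
      ∑ _S ∈ F.filter (fun S => ¬ Disjoint S Z), (2 * t : ℝ) := by
    apply Finset.sum_le_sum
    intro S hS
    exact DD_le_tile G t ht S (hF S (Finset.mem_filter.1 hS).1)
  rw [Finset.sum_const, nsmul_eq_mul] at h2
  have h3 : (F.filter (fun S => ¬ Disjoint S Z)).card ≤ Z.card := by
    by_cases hV : Nonempty V
    swap
    · have h0 : F.filter (fun S => ¬ Disjoint S Z) = ∅ := by
        rw [Finset.filter_eq_empty_iff]
        intro S _ hS
        obtain ⟨z, -, -⟩ := Finset.not_disjoint_iff.1 hS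
        exact hV ⟨z⟩
      rw [h0]; simp
    have hch : ∀ S : Finset V, ∃ z : V, S ∈ F.filter (fun S => ¬ Disjoint S Z) → z ∈ S ∧ z ∈ Z := by
      intro S
      by_cases hS : S ∈ F.filter (fun S => ¬ Disjoint S Z)
      · obtain ⟨z, hz1, hz2⟩ := Finset.not_disjoint_iff.1 (Finset.mem_filter.1 hS).2
        exact ⟨z, fun _ => ⟨hz1, hz2⟩⟩
      · obtain ⟨v⟩ := hV
        exact ⟨v, fun h => absurd h hS⟩
    choose f hf using hch
    apply Finset.card_le_card_of_injOn f
    · intro S hS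
      exact (hf S hS).2
    · intro S hS S' hS' heq
      by_contra hne
      have h4 := hFd S (Finset.mem_filter.1 hS).1 S' (Finset.mem_filter.1 hS').1 hne
      refine Finset.disjoint_left.1 h4 (hf S hS).1 ?_
      rw [heq]
      exact (hf S' hS').1
  have h5 : ((F.filter (fun S => ¬ Disjoint S Z)).card : ℝ) ≤ Z.card := by exact_mod_cast h3
  have h6 : ((F.filter (fun S => ¬ Disjoint S Z)).card : ℝ) * (2 * t) ≤ Z.card * (2 * t) :=
    mul_le_mul_of_nonneg_right h5 (by positivity)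
  linarith

theorem numeric (t k N d DDU A : ℝ) (ht : 2 ≤ t) (hk : 0 < k) (hd : 0 < d) (hd1 : d ≤ 1)
    (hN : 0 < N) (hA : A = 2 * k * (1 + 2 * t * d))
    (h : t * DDU / N + (t - 1) * N ≤ A) :
    DDU / 2 ≤ k ^ 2 / (2 * t * (t - 1)) + 8 * d * k ^ 2 := by
  have ht1 : 0 < t - 1 := by linarith
  have ht0 : 0 < t := by linarith
  have h1 : t * DDU ≤ (A - (t - 1) * N) * N := by
    rw [← div_le_iff₀ hN]; linarith
  have h2 : 4 * (t - 1) * ((A - (t - 1) * N) * N) ≤ A ^ 2 := by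
    nlinarith [sq_nonneg (A - 2 * (t - 1) * N)]
  have h3 : 4 * (t - 1) * (t * DDU) ≤ A ^ 2 := by
    refine le_trans ?_ h2
    apply mul_le_mul_of_nonneg_left h1 (by positivity)
  have h4 : (1 + 2 * t * d) ^ 2 ≤ 1 + 8 * t ^ 2 * d := by
    have e1 : t * d ≤ t ^ 2 * d := by nlinarith [mul_pos ht0 hd]
    have e2 : t ^ 2 * d ^ 2 ≤ t ^ 2 * d := by
      have : d ^ 2 ≤ d := by nlinarith
      exact mul_le_mul_of_nonneg_left this (by positivity)
    nlinarith
  have h5 : A ^ 2 ≤ 4 * k ^ 2 * (1 + 8 * t ^ 2 * d) := by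
    rw [hA]
    calc (2 * k * (1 + 2 * t * d)) ^ 2 = 4 * k ^ 2 * (1 + 2 * t * d) ^ 2 := by ring
      _ ≤ _ := by
        apply mul_le_mul_of_nonneg_left h4 (by positivity)
  have h6 : DDU / 2 ≤ k ^ 2 * (1 + 8 * t ^ 2 * d) / (2 * t * (t - 1)) := by
    rw [le_div_iff₀ (by positivity)]
    linarith
  refine h6.trans ?_
  have h7 : k ^ 2 * (1 + 8 * t ^ 2 * d) / (2 * t * (t - 1)) =
      k ^ 2 / (2 * t * (t - 1)) + (t / (t - 1)) * (4 * d * k ^ 2) := by
    field_simp
    ring
  rw [h7]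
  have h8 : t / (t - 1) ≤ 2 := by
    rw [div_le_iff₀ ht1]; linarith
  have h9 : t / (t - 1) * (4 * d * k ^ 2) ≤ 2 * (4 * d * k ^ 2) :=
    mul_le_mul_of_nonneg_right h8 (by positivity)
  linarith

theorem main_upper (t k : ℕ) (ht : 2 ≤ t) (hk : 0 < k) (d : ℝ) (hd : 0 < d) (hd1 : d ≤ 1)
    (N1 s : ℕ)
    (hN1 : ∀ (V : Type) [Fintype V] [DecidableEq V] (G : SimpleGraph V) (U : Finset V),
      N1 ≤ U.card → ∃ F : Finset (Finset V), (∀ S ∈ F, S ⊆ U) ∧ (∀ S ∈ F, S.card = 2 * t) ∧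
        (∀ S ∈ F, ∀ S' ∈ F, S ≠ S' → Disjoint S S') ∧
        t * DD G U / U.card - (t - 1) * U.card - d * U.card ≤
          ∑ S ∈ F, (DD G S - 4 * (t : ℝ) * (t - 1)))
    (hs : (1 - (d / 4) ^ (t - 1)) ^ s ≤ d / 2)
    (hk1 : 2 * (t : ℝ) * s ≤ d * k)
    (hbig : ((s * (t - 1) : ℕ) : ℝ) + ((t - 1 : ℕ) : ℝ) ≤ d * k / 2)
    (hkN : (N1 : ℝ) ^ 2 ≤ d * k ^ 2) (G : SimpleGraph V) (hG : SmallE G t k) :
    (G.edgeSet.ncard : ℝ) ≤ (k : ℝ) ^ 2 / (2 * t * (t - 1)) + 10 * d * k ^ 2 := by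
  classical
  have htR : (2 : ℝ) ≤ t := by exact_mod_cast ht
  have hkR : (0 : ℝ) < k := by exact_mod_cast hk
  have hsm : Small G (t - 1) k := small_of_smallE (by omega) hG
  have hW : (supp G).card ≤ 2 * k := supp_card (t := t - 1) (by omega) hsm
  have hE := edges_le2 G k d hd hW
  set U := Finset.univ.filter (fun u => d * k ≤ (G.degree u : ℝ)) with hU
  suffices hDD : DD G U / 2 ≤ (k : ℝ) ^ 2 / (2 * t * (t - 1)) + 8 * d * k ^ 2 by
    linarith
  have h0 : (0 : ℝ) ≤ (k : ℝ) ^ 2 / (2 * t * (t - 1)) := by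
    apply div_nonneg (by positivity)
    nlinarith
  by_cases hUN : U.card < N1
  · have h1 : (U.card : ℝ) ≤ N1 := by exact_mod_cast hUN.le
    have h2 := DD_le_sq G U
    have h3 : (U.card : ℝ) ^ 2 ≤ (N1 : ℝ) ^ 2 := by gcongr
    have h4 : 0 ≤ d * (k : ℝ) ^ 2 := by positivity
    linarith
  rcases U.eq_empty_or_nonempty with hUe | hUne
  · have h4 : 0 ≤ d * (k : ℝ) ^ 2 := by positivity
    rw [hUe]
    unfold DD
    simp only [Finset.sum_empty, zero_div]
    linarith
  have hUpos : (0 : ℝ) < U.card := by exact_mod_cast Finset.card_pos.2 hUne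
  push Not at hUN
  obtain ⟨F, hF1, hF2, hF3, hF4⟩ := hN1 V G U hUN
  obtain ⟨M, N, h1, h2, h3, h4, h5⟩ := greedy (t - 1) k d hd (by linarith) hW hk U (fun u hu => by
    rw [hU, Finset.mem_filter] at hu; exact hu.2) s hbig
  set Z := M.biUnion N with hZ
  set F' := F.filter (fun S => Disjoint S Z) with hF'
  set M' := M \ (Z ∪ F'.biUnion id) with hM'
  have hMM : M' ⊆ M := Finset.sdiff_subset
  have hmem : ∀ u ∈ M', u ∉ Z ∧ ∀ S ∈ F', u ∉ S := by
    intro u hu
    rw [hM', Finset.mem_sdiff, Finset.mem_union] at hu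
    refine ⟨fun h => hu.2 (Or.inl h), fun S hS h => hu.2 (Or.inr ?_)⟩
    rw [Finset.mem_biUnion]
    exact ⟨S, hS, h⟩
  have hNZ : ∀ u ∈ M', ∀ x ∈ N u, x ∈ Z := by
    intro u hu x hx
    rw [hZ, Finset.mem_biUnion]
    exact ⟨u, hMM hu, hx⟩
  have hcount := count G t k (by omega) hG F'
    (fun S hS => hF2 S (Finset.mem_filter.1 hS).1)
    (fun S hS S' hS' hne => hF3 S (Finset.mem_filter.1 hS).1 S' (Finset.mem_filter.1 hS').1 hne)
    M' N (fun u hu S hS => (hmem u hu).2 S hS)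
    (fun u hu x hx S hS hxS => Finset.disjoint_left.1 (Finset.mem_filter.1 hS).2 hxS
      (hNZ u hu x hx))
    (fun u hu => (h2 u (hMM hu)).1) (fun u hu u' hu' => h3 u (hMM hu) u' (hMM hu'))
    (fun u hu x hx hxM => (hmem x hxM).1 (hNZ u hu x hx))
    (fun u hu x hx => (h2 u (hMM hu)).2 x hx)
  have hdrop := tiles_drop G t (by omega) F hF2 hF3 Z
  rw [← hF'] at hdrop
  have hsum : ∑ S ∈ F', (DD G S - 4 * (t : ℝ) * (t - 1)) =
      ∑ S ∈ F', DD G S - F'.card * (4 * (t : ℝ) * (t - 1)) := by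
    rw [Finset.sum_sub_distrib, Finset.sum_const, nsmul_eq_mul]
  -- size of M'
  have hMc : (M.card : ℝ) ≤ M'.card + Z.card + F'.card * (2 * t) := by
    have e1 : M ⊆ M' ∪ (Z ∪ F'.biUnion id) := by
      intro x hx
      by_cases h : x ∈ Z ∪ F'.biUnion id
      · exact Finset.mem_union_right _ h
      · exact Finset.mem_union_left _ (Finset.mem_sdiff.2 ⟨hx, h⟩)
    have e2 := (Finset.card_le_card e1).trans ((Finset.card_union_le _ _).trans
      (Nat.add_le_add_left (Finset.card_union_le _ _) _))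
    have e3 : (F'.biUnion id).card ≤ F'.card * (2 * t) := by
      apply Finset.card_biUnion_le_card_mul
      intro S hS
      exact (hF2 S (Finset.mem_filter.1 hS).1).le
    have e4 : M.card ≤ M'.card + Z.card + F'.card * (2 * t) := by omega
    exact_mod_cast e4
  have hUs : (U.card : ℝ) ≤ 2 * k := by
    have h8 : U ⊆ supp G := by
      intro u hu
      rw [hU, Finset.mem_filter] at hu
      unfold supp
      rw [Finset.mem_filter]
      refine ⟨Finset.mem_univ _, ?_⟩
      have h9 : 0 < G.degree u := by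
        have h10 : (0 : ℝ) < G.degree u := lt_of_lt_of_le (by positivity) hu.2
        exact_mod_cast h10
      rw [← SimpleGraph.card_neighborFinset_eq_degree, Finset.card_pos] at h9
      obtain ⟨w, hw⟩ := h9
      rw [SimpleGraph.mem_neighborFinset] at hw
      exact ⟨w, hw⟩
    exact_mod_cast (Finset.card_le_card h8).trans hW
  have h11 : ((U \ M).card : ℝ) ≤ d * k := by
    refine h5.trans ?_
    calc (1 - (d / 4) ^ (t - 1)) ^ s * (U.card : ℝ) ≤ d / 2 * (2 * k) :=
          mul_le_mul hs hUs (by positivity) (by positivity)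
      _ = d * k := by ring
  have h13 : (U.card : ℝ) = (U \ M).card + M.card := by
    exact_mod_cast (Finset.card_sdiff_add_card_eq_card h1).symm
  have hZc : (Z.card : ℝ) ≤ s * (t - 1) := by
    have : (Z.card : ℝ) ≤ ((s * (t - 1) : ℕ) : ℝ) := by exact_mod_cast h4
    rw [Nat.cast_mul, Nat.cast_sub (by omega)] at this
    push_cast at this
    exact this
  have hZ0 : (0 : ℝ) ≤ Z.card := by positivity
  have hF0 : (0 : ℝ) ≤ F'.card := by positivity
  have ht1 : (0 : ℝ) ≤ t - 1 := by linarith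
  apply numeric t k U.card d (DD G U) _ htR hkR hd hd1 hUpos rfl
  -- combine
  have c1 : 2 * ((t : ℝ) - 1) * (U.card - d * k - Z.card - F'.card * (2 * t)) ≤
      2 * ((t : ℝ) - 1) * M'.card := by
    apply mul_le_mul_of_nonneg_left _ (by linarith)
    linarith
  have c2 : d * (U.card : ℝ) ≤ d * (2 * k) := mul_le_mul_of_nonneg_left hUs hd.le
  have c3 : (4 * (t : ℝ) - 2) * Z.card ≤ 2 * t * (d * k) := by
    have e1 : (4 * (t : ℝ) - 2) * Z.card ≤ (4 * t - 2) * (s * (t - 1)) := by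
      apply mul_le_mul_of_nonneg_left hZc (by linarith)
    have e2 : (4 * (t : ℝ) - 2) * (s * (t - 1)) ≤ 2 * t * (2 * t * s) := by
      have hs0 : (0 : ℝ) ≤ s := by positivity
      nlinarith [mul_nonneg hs0 ht1, mul_nonneg hs0 (by linarith : (0:ℝ) ≤ t)]
    have e3 : 2 * (t : ℝ) * (2 * t * s) ≤ 2 * t * (d * k) := by
      apply mul_le_mul_of_nonneg_left hk1 (by linarith)
    linarith
  have c4 : 0 ≤ d * (k : ℝ) := by positivity
  nlinarith

end Q116.Inv2
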