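import Pool.Agent.Q116.Inv2.Round

/-! # The quadratic inequality for dual solutions (Zykov symmetrisation) -/

set_option autoImplicit false

namespace Q116.Inv2

open Finset

variable {ι : Type} [Fintype ι] [DecidableEq ι]

/-- indicator of non-adjacency -/
noncomputable def Nn (R : SimpleGraph ι) (i j : ι) : ℝ :=
  open Classical in if R.Adj i j then 0 else 1

lemma Nn_symm (R : SimpleGraph ι) (i j : ι) : Nn R i j = Nn R j i := by
  unfold Nn
  by_cases h : R.Adj i j
  · rw [if_pos h, if_pos h.symm]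
  · rw [if_neg h, if_neg (fun hh => h hh.symm)]

lemma Nn_self (R : SimpleGraph ι) (i : ι) : Nn R i i = 1 := by
  unfold Nn
  rw [if_neg (R.loopless.irrefl i)]

noncomputable def row (R : SimpleGraph ι) (w : ι → ℝ) (i : ι) : ℝ := ∑ j, Nn R i j * w j

noncomputable def Q (R : SimpleGraph ι) (w : ι → ℝ) : ℝ := ∑ i, w i * row R w i

lemma Q_expand (R : SimpleGraph ι) (w z : ι → ℝ) (s : ℝ) :
    Q R (fun k => w k + s * z k) = Q R w + 2 * s * ∑ k, z k * row R w k + s ^ 2 * Q R z := by
  have hrow : ∀ i, row R (fun k => w k + s * z k) i = row R w i + s * row R z i := by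
    intro i
    unfold row
    rw [Finset.mul_sum, ← Finset.sum_add_distrib]
    apply Finset.sum_congr rfl
    intro j _
    ring
  have hsym : ∑ i, w i * row R z i = ∑ i, z i * row R w i := by
    unfold row
    simp_rw [Finset.mul_sum]
    rw [Finset.sum_comm]
    apply Finset.sum_congr rfl
    intro i _
    apply Finset.sum_congr rfl
    intro j _
    rw [Nn_symm R j i]
    ring
  unfold Q
  simp_rw [hrow]
  have : ∀ i, (w i + s * z i) * (row R w i + s * row R z i) =
      w i * row R w i + (s * (w i * row R z i) + s * (z i * row R w i)) +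
        s ^ 2 * (z i * row R z i) := fun i => by ring
  simp_rw [this, Finset.sum_add_distrib, ← Finset.mul_sum]
  rw [hsym]
  ring

/-- `e i - e j` -/
def zz (i j : ι) (k : ι) : ℝ := (if k = i then 1 else 0) - (if k = j then 1 else 0)

lemma sum_zz (i j : ι) (r : ι → ℝ) : ∑ k, zz i j k * r k = r i - r j := by
  unfold zz
  simp_rw [sub_mul, Finset.sum_sub_distrib, ite_mul, one_mul, zero_mul]
  simp

lemma Q_zz (R : SimpleGraph ι) (i j : ι) :
    Q R (zz i j) = 2 - 2 * Nn R i j := by
  unfold Q
  rw [sum_zz]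
  have h : ∀ k, row R (zz i j) k = Nn R k i - Nn R k j := by
    intro k
    unfold row
    have : ∀ l, Nn R k l * zz i j l = zz i j l * Nn R k l := fun l => mul_comm _ _
    simp_rw [this]
    exact sum_zz i j _
  rw [h, h, Nn_self, Nn_self, Nn_symm R j i]
  ring

noncomputable def Phi (R : SimpleGraph ι) (t : ℕ) (x w : ι → ℝ) : ℝ :=
  2 * ∑ i, w i * x i - t * Q R w

lemma Phi_move (R : SimpleGraph ι) (t : ℕ) (x w : ι → ℝ) (i j : ι) (s : ℝ) :
    Phi R t x (fun k => w k + s * zz i j k) = Phi R t x w +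
      2 * s * ((x i - t * row R w i) - (x j - t * row R w j)) - t * s ^ 2 * (2 - 2 * Nn R i j) := by
  unfold Phi
  rw [Q_expand, sum_zz, Q_zz]
  have h : ∑ k, (w k + s * zz i j k) * x k = ∑ k, w k * x k + s * (x i - x j) := by
    simp_rw [add_mul, Finset.sum_add_distrib, mul_assoc]
    rw [← Finset.mul_sum, sum_zz]
  rw [h]
  ring

/-- The tiles: vectors with values `0, 1, 2` and sum `2 t` supported by a clique. -/
def IsTile (R : SimpleGraph ι) (t : ℕ) (a : ι → ℕ) : Prop :=
  (∀ k, a k ≤ 2) ∧ ∑ k, a k = 2 * t ∧ ∀ i j, i ≠ j → a i ≠ 0 → a j ≠ 0 → R.Adj i j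

lemma clique_case (R : SimpleGraph ι) (t : ℕ) (ht : 1 ≤ t) (x w : ι → ℝ) (hx : ∀ k, x k ≤ 1)
    (htile : ∀ a, IsTile R t a → ∑ k, (a k : ℝ) * x k ≤ ∑ k, (a k : ℝ) ^ 2 / 2)
    (hw0 : ∀ k, 0 ≤ w k) (hw1 : ∑ k, w k = 1)
    (hcl : ∀ i j, i ≠ j → w i ≠ 0 → w j ≠ 0 → R.Adj i j)
    (lam : ℝ) (hlam : ∀ k, w k ≠ 0 → x k - t * row R w k = lam) : Phi R t x w ≤ 1 := by
  have ht0 : (1 : ℝ) ≤ t := by exact_mod_cast ht
  have hrow : ∀ i, w i ≠ 0 → row R w i = w i := by
    intro i hi
    unfold row
    rw [Finset.sum_eq_single i]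
    · rw [Nn_self, one_mul]
    · intro j _ hj
      by_cases hwj : w j = 0
      · rw [hwj, mul_zero]
      · unfold Nn
        rw [if_pos (hcl i j (Ne.symm hj) hi hwj), zero_mul]
    · intro h; exact absurd (mem_univ i) h
  have hxe : ∀ k, w k ≠ 0 → x k = lam + t * w k := by
    intro k hk
    have := hlam k hk
    rw [hrow k hk] at this
    linarith
  have hQ : Q R w = ∑ k, w k * w k := by
    unfold Q
    apply Finset.sum_congr rfl
    intro k _
    by_cases hk : w k = 0
    · rw [hk]; ring
    · rw [hrow k hk]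
  have hS : ∑ k, w k * x k = lam + t * ∑ k, w k * w k := by
    have : ∀ k ∈ univ, w k * x k = lam * w k + t * (w k * w k) := by
      intro k _
      by_cases hk : w k = 0
      · rw [hk]; ring
      · rw [hxe k hk]; ring
    rw [Finset.sum_congr rfl this, Finset.sum_add_distrib, ← Finset.mul_sum, ← Finset.mul_sum,
      hw1]
    ring
  have hPhi : Phi R t x w = 2 * lam + t * ∑ k, w k * w k := by
    unfold Phi
    rw [hQ, hS]
    ring
  rw [hPhi]
  have hu : ∀ k, t * w k ≤ 1 - lam ∨ w k = 0 := by
    intro k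
    by_cases hk : w k = 0
    · exact Or.inr hk
    · left
      have := hxe k hk
      have := hx k
      linarith
  rcases le_total lam 0 with hl | hl
  · have : t * ∑ k, w k * w k ≤ 1 - lam := by
      rw [Finset.mul_sum]
      calc ∑ k, t * (w k * w k) ≤ ∑ k, (1 - lam) * w k := by
            apply Finset.sum_le_sum
            intro k _
            rcases hu k with h | h
            · have := mul_le_mul_of_nonneg_right h (hw0 k)
              linarith
            · rw [h]; simp
        _ = 1 - lam := by rw [← Finset.mul_sum, hw1, mul_one]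
    linarith
  · obtain ⟨a, ha1, ha2, ha3, ha4⟩ := exists_tile (fun k => t * w k) t (fun k => ⟨by
      have := hw0 k
      positivity, by
      rcases hu k with h | h
      · linarith
      · simp only [h, mul_zero]; norm_num⟩) (by
      rw [← Finset.mul_sum, hw1, mul_one])
    have hsupp : ∀ k, a k ≠ 0 → w k ≠ 0 := by
      intro k hk h0
      exact ha3 k hk (by simp only [h0, mul_zero])
    have h5 := htile a ⟨ha1, ha2, fun i j hij hi hj => hcl i j hij (hsupp i hi) (hsupp j hj)⟩
    have h6 : ∑ k, (a k : ℝ) * x k = lam * (2 * t) + ∑ k, (a k : ℝ) * (t * w k) := by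
      have : ∀ k ∈ univ, (a k : ℝ) * x k = lam * a k + a k * (t * w k) := by
        intro k _
        by_cases hk : a k = 0
        · rw [hk]; simp
        · rw [hxe k (hsupp k hk)]; ring
      rw [Finset.sum_congr rfl this, Finset.sum_add_distrib, ← Finset.mul_sum]
      have : (∑ k, (a k : ℝ)) = 2 * t := by exact_mod_cast ha2
      rw [this]
    have h7 : ∑ k, ((a k : ℝ) ^ 2 / 2 - a k * (t * w k)) =
        ∑ k, (a k : ℝ) ^ 2 / 2 - ∑ k, (a k : ℝ) * (t * w k) := Finset.sum_sub_distrib _ _
    have h8 : ∑ k, t * w k * (1 - t * w k) = t - t ^ 2 * ∑ k, w k * w k := by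
      have : ∀ k ∈ univ, t * w k * (1 - t * w k) = t * w k - t ^ 2 * (w k * w k) := by
        intro k _; ring
      rw [Finset.sum_congr rfl this, Finset.sum_sub_distrib, ← Finset.mul_sum, ← Finset.mul_sum,
        hw1, mul_one]
    rw [h7, h8] at ha4
    have h9 : t * (2 * lam + t * ∑ k, w k * w k) ≤ t * 1 := by nlinarith
    exact le_of_mul_le_mul_left h9 (by linarith)

open Classical in
/-- **The inequality**: `2 ∑ w x - t ∑_{u ≁ v} w u w v ≤ 1` for all weights. -/
theorem zykov (R : SimpleGraph ι) (t : ℕ) (ht : 1 ≤ t) (x : ι → ℝ) (hx : ∀ k, x k ≤ 1)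
    (htile : ∀ a, IsTile R t a → ∑ k, (a k : ℝ) * x k ≤ ∑ k, (a k : ℝ) ^ 2 / 2)
    (w : ι → ℝ) (hw : w ∈ stdSimplex ℝ ι) : Phi R t x w ≤ 1 := by
  have hcont : Continuous (fun w : ι → ℝ => Phi R t x w) := by
    unfold Phi Q row
    fun_prop
  have hne : (stdSimplex ℝ ι).Nonempty := ⟨w, hw⟩
  obtain ⟨w1, hw1, hmax1⟩ := (isCompact_stdSimplex ℝ ι).exists_isMaxOn hne hcont.continuousOn
  -- a maximiser with minimal support
  let P : ℕ → Prop := fun n => ∃ v ∈ stdSimplex ℝ ι,
    (∀ v' ∈ stdSimplex ℝ ι, Phi R t x v' ≤ Phi R t x v) ∧ (univ.filter (fun k => v k ≠ 0)).card = n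
  have hP : ∃ n, P n := ⟨_, w1, hw1, fun v' hv' => hmax1 hv', rfl⟩
  obtain ⟨v, hv, hmax, hcard⟩ := Nat.find_spec hP
  have hmin : ∀ v' ∈ stdSimplex ℝ ι, (∀ v'' ∈ stdSimplex ℝ ι, Phi R t x v'' ≤ Phi R t x v') →
      (univ.filter (fun k => v k ≠ 0)).card ≤ (univ.filter (fun k => v' k ≠ 0)).card := by
    intro v' hv' hm
    rw [hcard]
    exact Nat.find_min' hP ⟨v', hv', hm, rfl⟩
  refine (hmax w hw).trans ?_
  have hv0 : ∀ k, 0 ≤ v k := hv.1
  have hv1 : ∑ k, v k = 1 := hv.2
  have hmem : ∀ i j s, i ≠ j → - v i ≤ s → s ≤ v j →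
      (fun k => v k + s * zz i j k) ∈ stdSimplex ℝ ι := by
    intro i j s hij h1 h2
    constructor
    · intro k
      unfold zz
      by_cases hki : k = i
      · subst hki
        simp [hij]
        linarith
      · by_cases hkj : k = j
        · subst hkj
          simp [hki]
          linarith
        · simp [hki, hkj, hv0 k]
    · rw [Finset.sum_add_distrib, hv1, ← Finset.mul_sum]
      have := sum_zz i j (fun _ => (1 : ℝ))
      simp only [mul_one, sub_self] at this
      rw [this]
      ring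
  -- the support is a clique
  have hcl : ∀ i j, i ≠ j → v i ≠ 0 → v j ≠ 0 → R.Adj i j := by
    intro i j hij hi hj
    by_contra hadj
    have hN : Nn R i j = 1 := by unfold Nn; rw [if_neg hadj]
    have hi0 : 0 < v i := lt_of_le_of_ne (hv0 i) (Ne.symm hi)
    have hj0 : 0 < v j := lt_of_le_of_ne (hv0 j) (Ne.symm hj)
    set c := (x i - t * row R v i) - (x j - t * row R v j) with hc
    have e1 := hmax _ (hmem i j (v j) hij (by linarith) le_rfl)
    have e2 := hmax _ (hmem i j (- v i) hij le_rfl (by linarith))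
    rw [Phi_move, hN] at e1 e2
    have hc0 : c = 0 := by
      apply le_antisymm
      · have : 0 < 2 * v j := by linarith
        by_contra hcon
        push Not at hcon
        nlinarith
      · by_contra hcon
        push Not at hcon
        nlinarith
    have hmx : ∀ v'' ∈ stdSimplex ℝ ι,
        Phi R t x v'' ≤ Phi R t x (fun k => v k + v j * zz i j k) := by
      intro v'' hv''
      rw [Phi_move, hN, ← hc, hc0]
      refine (hmax v'' hv'').trans (le_of_eq ?_)
      ring
    have h3 := hmin _ (hmem i j (v j) hij (by linarith) le_rfl) hmx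
    have h4 : (univ.filter (fun k => v k + v j * zz i j k ≠ 0)).card <
        (univ.filter (fun k => v k ≠ 0)).card := by
      apply Finset.card_lt_card
      rw [Finset.ssubset_iff_of_subset]
      · refine ⟨j, by simpa using hj, ?_⟩
        simp [zz, Ne.symm hij]
      · intro k hk
        rw [mem_filter] at hk ⊢
        refine ⟨hk.1, fun h0 => ?_⟩
        by_cases hki : k = i
        · exact hi (hki ▸ h0)
        · by_cases hkj : k = j
          · exact hj (hkj ▸ h0)
          · apply hk.2
            simp [zz, hki, hkj, h0]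
    exact absurd h3 (not_le.2 h4)
  -- stationarity
  obtain ⟨i0, hi0⟩ : ∃ i, v i ≠ 0 := by
    by_contra hcon
    push Not at hcon
    rw [Finset.sum_congr rfl (fun k _ => hcon k)] at hv1
    simp at hv1
  refine clique_case R t ht x v hx htile hv0 hv1 hcl (x i0 - t * row R v i0) ?_
  intro j hj
  by_cases hji : j = i0
  · rw [hji]
  have hadj := hcl j i0 hji hj hi0
  have hN : Nn R j i0 = 0 := by unfold Nn; rw [if_pos hadj]
  have hi0' : 0 < v i0 := lt_of_le_of_ne (hv0 i0) (Ne.symm hi0)
  have hj0 : 0 < v j := lt_of_le_of_ne (hv0 j) (Ne.symm hj)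
  set c := (x j - t * row R v j) - (x i0 - t * row R v i0) with hc
  have ht0 : (0 : ℝ) < t := by exact_mod_cast ht
  have key : ∀ s, - v j ≤ s → s ≤ v i0 → s * c ≤ t * s ^ 2 := by
    intro s h1 h2
    have e := hmax _ (hmem j i0 s hji h1 h2)
    rw [Phi_move, hN] at e
    nlinarith
  have hc0 : c = 0 := by
    by_contra hne
    rcases lt_or_gt_of_ne hne with h | h
    · -- c < 0, take s < 0
      set s := min (v j) (-c / (2 * t)) with hs
      have hs0 : 0 < s := lt_min hj0 (by
        apply div_pos <;> linarith)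
      have h1 := key (-s) (by
        have := min_le_left (v j) (-c / (2 * t))
        linarith) (by linarith)
      have h2 : s ≤ -c / (2 * t) := min_le_right _ _
      rw [le_div_iff₀ (by linarith)] at h2
      nlinarith
    · set s := min (v i0) (c / (2 * t)) with hs
      have hs0 : 0 < s := lt_min hi0' (by
        apply div_pos <;> linarith)
      have h1 := key s (by linarith) (min_le_left _ _)
      have h2 : s ≤ c / (2 * t) := min_le_right _ _
      rw [le_div_iff₀ (by linarith)] at h2
      nlinarith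
  linarith

end Q116.Inv2
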